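import Mathlib

/-!
Irreducible complex characters of a finite group: orthogonality, finiteness, completeness.
-/

open scoped ComplexConjugate MonoidAlgebra

namespace Pool.Agent.helper4.Amza

/-- The set of irreducible complex characters of `G`: characters of irreducible finite
dimensional complex representations of `G`. -/
def irrChars (G : Type) [Group G] : Set (G → ℂ) :=
  {χ | ∃ (V : Type) (_ : AddCommGroup V) (_ : Module ℂ V) (_ : FiniteDimensional ℂ V)
    (ρ : Representation ℂ G V), ρ.IsIrreducible ∧ ρ.character = χ}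

variable {G : Type} [Group G]

lemma irr_conj {χ : G → ℂ} (h : χ ∈ irrChars G) (g x : G) : χ (x * g * x⁻¹) = χ g := by
  obtain ⟨V, _, _, _, ρ, -, rfl⟩ := h
  exact ρ.char_conj g x

lemma irr_isConj {χ : G → ℂ} (h : χ ∈ irrChars G) {g g' : G} (hg : IsConj g g') : χ g = χ g' := by
  obtain ⟨x, rfl⟩ := isConj_iff.mp hg
  exact (irr_conj h g x).symm

variable [Fintype G]

noncomputable instance invCard : Invertible (Nat.card G : ℂ) :=
  invertibleOfNonzero (by exact_mod_cast Nat.card_pos.ne')

lemma card_ne_zero' : (Nat.card G : ℂ) ≠ 0 := by exact_mod_cast Nat.card_pos.ne'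

open Classical in
lemma irr_orthogonal {χ ψ : G → ℂ} (hχ : χ ∈ irrChars G) (hψ : ψ ∈ irrChars G) :
    ∑ g : G, χ g * ψ g⁻¹ = if χ = ψ then (Nat.card G : ℂ) else 0 := by
  have hc : (Nat.card G : ℂ) ≠ 0 := card_ne_zero'
  obtain ⟨V, _, _, _, ρ, hρ, rfl⟩ := hχ
  obtain ⟨W, _, _, _, σ, hσ, rfl⟩ := hψ
  have key := Representation.char_orthonormal ρ σ
  have key2 := Representation.char_orthonormal ρ ρ
  rw [if_pos ⟨Representation.Equiv.refl ρ⟩] at key2
  by_cases h : Nonempty (Representation.Equiv σ ρ)
  · rw [if_pos h] at key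
    obtain ⟨e⟩ := h
    have := Representation.char_iso e
    rw [if_pos this.symm]
    field_simp at key
    exact key
  · rw [if_neg h] at key
    have h0 : ∑ g : G, ρ.character g * σ.character g⁻¹ = 0 := by
      rcases mul_eq_zero.mp key with h1 | h1
      · exact absurd h1 (inv_ne_zero hc)
      · exact h1
    rw [if_neg, h0]
    intro he
    rw [← he] at h0
    rw [h0] at key2
    simp at key2

theorem finite_irrChars (G : Type) [Group G] [Finite G] : (irrChars G).Finite := by
  classical
  have := Fintype.ofFinite G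
  have hli : LinearIndependent ℂ (Subtype.val : irrChars G → (G → ℂ)) := by
    rw [linearIndependent_iff']
    intro s c hc i hi
    have h1 : ∑ g : G, (∑ j ∈ s, c j • (j : G → ℂ)) g * (i : G → ℂ) g⁻¹ = 0 := by
      rw [hc]; simp
    have h2 : ∑ g : G, (∑ j ∈ s, c j • (j : G → ℂ)) g * (i : G → ℂ) g⁻¹
        = ∑ j ∈ s, c j * (∑ g : G, (j : G → ℂ) g * (i : G → ℂ) g⁻¹) := by
      simp only [Finset.sum_apply, Pi.smul_apply, smul_eq_mul, Finset.sum_mul, Finset.mul_sum]
      rw [Finset.sum_comm]
      refine Finset.sum_congr rfl fun j _ => Finset.sum_congr rfl fun g _ => by ring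
    rw [h2] at h1
    have h3 : ∀ j ∈ s, c j * (∑ g : G, (j : G → ℂ) g * (i : G → ℂ) g⁻¹)
        = if j = i then c i * (Nat.card G : ℂ) else 0 := by
      intro j _
      rw [irr_orthogonal j.2 i.2]
      by_cases hji : j = i
      · subst hji; simp
      · rw [if_neg hji, if_neg (fun h => hji (Subtype.ext h)), mul_zero]
    rw [Finset.sum_congr rfl h3, Finset.sum_ite_eq' s i] at h1
    rw [if_pos hi] at h1
    exact (mul_eq_zero.mp h1).resolve_right card_ne_zero'
  exact hli.setFinite

/-- The finite set of irreducible characters. -/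
noncomputable def Irr (G : Type) [Group G] [Finite G] : Finset (G → ℂ) :=
  (finite_irrChars G).toFinset

lemma mem_Irr {χ : G → ℂ} : χ ∈ Irr G ↔ χ ∈ irrChars G := by
  simp [Irr]

set_option backward.isDefEq.respectTransparency false in
lemma finiteDimensional_restrict (M : Type) [AddCommGroup M] [Module ℂ[G] M]
    [IsSimpleModule ℂ[G] M] : FiniteDimensional ℂ (RestrictScalars ℂ ℂ[G] M) := by
  have : Module.Finite ℂ ℂ[G] := inferInstance
  have h2 : Module.Finite ℂ[G] M := inferInstance
  let : Module ℂ[G] (RestrictScalars ℂ ℂ[G] M) := RestrictScalars.moduleOrig ℂ ℂ[G] M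
  have h3 : Module.Finite ℂ[G] (RestrictScalars ℂ ℂ[G] M) := h2
  exact Module.Finite.trans ℂ[G] _

set_option backward.isDefEq.respectTransparency false in
lemma central_smul_eq_zero (M : Type) [AddCommGroup M] [Module ℂ[G] M]
    [IsSimpleModule ℂ[G] M] (φ : G → ℂ)
    (hzc : (∑ g : G, MonoidAlgebra.single g (φ g) : ℂ[G]) ∈ Submonoid.center ℂ[G])
    (h : ∀ χ ∈ irrChars G, ∑ g : G, φ g * χ g = 0) (m : M) :
    (∑ g : G, MonoidAlgebra.single g (φ g) : ℂ[G]) • m = 0 := by
  have hfd := finiteDimensional_restrict (G := G) M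
  set ρ : Representation ℂ G (RestrictScalars ℂ ℂ[G] M) :=
      Representation.ofModule M with hρ
  have hirr : ρ.IsIrreducible :=
      (Representation.isSimpleModule_iff_irreducible_ofModule M).mp inferInstance
  have hmem : ρ.character ∈ irrChars G := ⟨_, _, _, hfd, ρ, hirr, rfl⟩
  have h0 := h _ hmem
  set z : ℂ[G] := ∑ g : G, MonoidAlgebra.single g (φ g) with hz
  have htr : LinearMap.trace ℂ _ (ρ.asAlgebraHom z) = 0 := by
    rw [← h0, hz, map_sum, map_sum]
    refine Finset.sum_congr rfl fun g _ => ?_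
    rw [Representation.asAlgebraHom_single, map_smul, smul_eq_mul]
    rfl
  obtain ⟨c, hc⟩ := (Representation.IsIrreducible.algebraMap_intertwiningMap_bijective_of_isAlgClosed
      (ρ := ρ)).2 (Representation.IntertwiningMap.centralAlgebraMul ρ hzc)
  have hc' : ρ.asAlgebraHom z = c • LinearMap.id := by
    have := congrArg (fun f => f.toLinearMap) hc
    simp only [Representation.IntertwiningMap.algebraMap_apply] at this
    exact this.symm
  rw [hc', map_smul, LinearMap.trace_id, smul_eq_mul] at htr
  have hne : (Module.finrank ℂ (RestrictScalars ℂ ℂ[G] M) : ℂ) ≠ 0 := by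
    have : Nontrivial (RestrictScalars ℂ ℂ[G] M) := IsSimpleModule.nontrivial ℂ[G] M
    have := Module.finrank_pos (R := ℂ) (M := RestrictScalars ℂ ℂ[G] M)
    exact_mod_cast this.ne'
  have hc0 : c = 0 := (mul_eq_zero.mp htr).resolve_right hne
  have h1 := Representation.ofModule_asAlgebraHom_apply_apply (k := ℂ) (G := G) M z
    ((RestrictScalars.addEquiv _ _ _).symm m)
  rw [← hρ, hc', hc0] at h1
  simp at h1
  exact (AddEquiv.map_eq_zero_iff _).mp h1.symm

/-- Completeness: a class function orthogonal to all irreducible characters vanishes. -/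
theorem eq_zero_of_orthogonal (φ : G → ℂ) (hcl : ∀ g x, φ (x * g * x⁻¹) = φ g)
    (h : ∀ χ ∈ irrChars G, ∑ g : G, φ g * χ g = 0) (g : G) : φ g = 0 := by
  classical
  have hzc : (∑ g : G, MonoidAlgebra.single g (φ g) : ℂ[G]) ∈ Submonoid.center ℂ[G] := by
    rw [Submonoid.mem_center_iff]
    intro y
    induction y using MonoidAlgebra.induction_on with
    | of g =>
      rw [Finset.mul_sum, Finset.sum_mul]
      simp only [MonoidAlgebra.of_apply, MonoidAlgebra.single_mul_single, one_mul, mul_one]
      refine Finset.sum_equiv (MulAut.conj g).toEquiv (by simp) ?_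
      intro x _
      simp only [MulEquiv.toEquiv_eq_coe, EquivLike.coe_coe, MulAut.conj_apply]
      rw [hcl x g]
      simp
    | add a b ha hb => rw [add_mul, mul_add, ha, hb]
    | smul r a ha => rw [smul_mul_assoc, mul_smul_comm, ha]
  have key : (∑ g : G, MonoidAlgebra.single g (φ g) : ℂ[G]) ∈ Module.jacobson ℂ[G] ℂ[G] := by
    rw [Module.jacobson, Submodule.mem_sInf]
    intro I hI
    have hsimp : IsSimpleModule ℂ[G] (ℂ[G] ⧸ I) := isSimpleModule_iff_isCoatom.mpr hI
    have h1 := central_smul_eq_zero (ℂ[G] ⧸ I) φ hzc h (Submodule.Quotient.mk 1)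
    rw [← Submodule.Quotient.mk_smul, Submodule.Quotient.mk_eq_zero, smul_eq_mul, mul_one] at h1
    exact h1
  rw [IsSemisimpleModule.jacobson_eq_bot] at key
  have hz0 : (∑ g : G, MonoidAlgebra.single g (φ g) : ℂ[G]) = 0 := by simpa using key
  have := congrArg (fun y : ℂ[G] => y.coeff g) hz0
  simpa [Finsupp.single_apply] using this

end Pool.Agent.helper4.Amza
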