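import Mathlib
import Pool.Agent.helper4.Amza.Irr

/-!
The central Fourier algebra amenability constant and two general bounds.
-/

open scoped ComplexConjugate

namespace Pool.Agent.helper4.Amza

/-- The amenability constant of the central Fourier algebra of a finite group, by the formula of
Alaghmandan and Spronk: the sum over pairs of irreducible characters, divided by the square of
the order of the group, where `C.out` is an element of the conjugacy class `C`. -/
noncomputable def AMZA (G : Type) [Group G] [Finite G] : ℝ :=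
  1 / (Nat.card G : ℝ) ^ 2 * ∑ χ ∈ Irr G, ∑ χ' ∈ Irr G, (χ 1).re * (χ' 1).re *
    ‖∑ᶠ C : ConjClasses G, (Nat.card C.carrier : ℂ) ^ 2 * χ C.out * conj (χ' C.out)‖

variable {G : Type} [Group G] [Fintype G]

lemma irr_orth_self {χ : G → ℂ} (h : χ ∈ irrChars G) :
    ∑ g : G, χ g * χ g⁻¹ = (Nat.card G : ℂ) := by
  have := irr_orthogonal h h
  rwa [if_pos rfl] at this

lemma irr_orth_ne {χ ψ : G → ℂ} (h : χ ∈ irrChars G) (h' : ψ ∈ irrChars G) (hne : χ ≠ ψ) :
    ∑ g : G, χ g * ψ g⁻¹ = 0 := by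
  have := irr_orthogonal h h'
  rwa [if_neg hne] at this

lemma sum_irr_coeff {ψ : G → ℂ} (hψ : ψ ∈ irrChars G) (c : (G → ℂ) → ℂ) :
    ∑ χ ∈ Irr G, c χ * ∑ g : G, ψ g * χ g⁻¹ = c ψ * (Nat.card G : ℂ) := by
  rw [Finset.sum_eq_single ψ]
  · rw [irr_orth_self hψ]
  · intro χ hχ hne
    rw [irr_orth_ne hψ (mem_Irr.mp hχ) (Ne.symm hne), mul_zero]
  · intro h
    exact absurd (mem_Irr.mpr hψ) h

lemma sum_sum_irr {ψ : G → ℂ} (hψ : ψ ∈ irrChars G) (a : G) :
    ∑ g : G, (∑ χ ∈ Irr G, χ a * χ g⁻¹) * ψ g = ψ a * (Nat.card G : ℂ) := by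
  rw [← sum_irr_coeff hψ (fun χ => χ a)]
  simp only [Finset.sum_mul, Finset.mul_sum]
  rw [Finset.sum_comm]
  refine Finset.sum_congr rfl fun χ _ => Finset.sum_congr rfl fun g _ => by ring

/-- The number of elements conjugate to `a`. -/
noncomputable def classCard (a : G) : ℂ := by
  classical exact ((Finset.univ.filter fun g : G => IsConj a g).card : ℂ)

open Classical in
lemma sum_class {ψ : G → ℂ} (hψ : ∀ g h, IsConj g h → ψ g = ψ h) (a : G) :
    ∑ g : G, (if IsConj a g then ψ g else 0) = classCard a * ψ a := by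
  rw [← Finset.sum_filter]
  rw [Finset.sum_congr rfl (g := fun _ => ψ a)]
  · rw [Finset.sum_const, nsmul_eq_mul]
    rfl
  · intro g hg
    exact (hψ _ _ (Finset.mem_filter.mp hg).2).symm

open Classical in
/-- Column orthogonality. -/
theorem column_orth (a b : G) :
    classCard a * ∑ χ ∈ Irr G, χ a * χ b⁻¹
      = if IsConj a b then (Nat.card G : ℂ) else 0 := by
  have key := eq_zero_of_orthogonal (G := G)
    (fun g => classCard a * ∑ χ ∈ Irr G, χ a * χ g⁻¹
      - if IsConj a g then (Nat.card G : ℂ) else 0) ?_ ?_ b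
  · exact sub_eq_zero.mp key
  · intro g x
    have h1 : IsConj a (x * g * x⁻¹) ↔ IsConj a g := by
      have : IsConj g (x * g * x⁻¹) := isConj_iff.mpr ⟨x, rfl⟩
      exact ⟨fun h => h.trans this.symm, fun h => h.trans this⟩
    have h2 : ∀ χ ∈ Irr G, χ a * χ (x * g * x⁻¹)⁻¹ = χ a * χ g⁻¹ := by
      intro χ hχ
      have : (x * g * x⁻¹)⁻¹ = x * g⁻¹ * x⁻¹ := by group
      rw [this, irr_conj (mem_Irr.mp hχ)]
    simp only [h1]
    rw [Finset.sum_congr rfl h2]
  · intro ψ hψ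
    simp only [sub_mul, Finset.sum_sub_distrib]
    have h1 : ∑ g : G, (if IsConj a g then (Nat.card G : ℂ) else 0) * ψ g
        = classCard a * ((Nat.card G : ℂ) * ψ a) := by
      simp only [ite_mul, zero_mul]
      exact sum_class (ψ := fun g => (Nat.card G : ℂ) * ψ g)
        (fun g h hgh => by rw [irr_isConj hψ hgh]) a
    rw [h1]
    simp only [mul_assoc]
    rw [← Finset.mul_sum, sum_sum_irr hψ a]
    ring

open Classical in
lemma reg_decomp (b : G) :
    ∑ χ ∈ Irr G, χ 1 * χ b⁻¹ = if b = 1 then (Nat.card G : ℂ) else 0 := by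
  have h := column_orth (1 : G) b
  have h1 : classCard (1 : G) = 1 := by
    have : (Finset.univ.filter fun g : G => IsConj 1 g) = {1} := by
      ext g; simp [eq_comm]
    rw [classCard, this]
    simp
  rw [h1, one_mul] at h
  rw [h]
  by_cases hb : b = 1
  · subst hb; simp
  · rw [if_neg hb, if_neg (fun h => hb (isConj_one_right.mp h))]

omit [Fintype G] in
lemma irr_one {χ : G → ℂ} (h : χ ∈ irrChars G) : ∃ d : ℕ, χ 1 = d := by
  obtain ⟨V, _, _, _, ρ, -, rfl⟩ := h
  exact ⟨_, ρ.char_one⟩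

omit [Fintype G] in
/-- Restriction of a character to (the image of) a finite abelian group. -/
theorem abelian_decomp {A : Type} [AddCommGroup A] [Fintype A] (r : Multiplicative A →* G)
    {χ : G → ℂ} (h : χ ∈ irrChars G) :
    ∃ m : AddChar A ℂ → ℕ, ∀ a : A, χ (r (Multiplicative.ofAdd a)) = ∑ ξ, (m ξ : ℂ) * ξ a := by
  classical
  obtain ⟨V, _, _, _, ρ, -, rfl⟩ := h
  let τ : AddChar A ℂ → Representation ℂ (Multiplicative A) V := fun ξ =>
    { toFun := fun g => ξ (-(g.toAdd)) • ρ (r g)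
      map_one' := by simp
      map_mul' := fun x y => by
        rw [toAdd_mul, neg_add, AddChar.map_add_eq_mul, map_mul, map_mul, smul_mul_smul_comm] }
  have hτ : ∀ ξ g, (τ ξ).character g = ξ (-(g.toAdd)) * ρ.character (r g) := by
    intro ξ g
    show LinearMap.trace ℂ V (ξ (-(g.toAdd)) • ρ (r g)) = _
    rw [map_smul, smul_eq_mul]
    rfl
  refine ⟨fun ξ => Module.finrank ℂ (τ ξ).invariants, fun a => ?_⟩
  have h1 : ∀ ξ, ((Module.finrank ℂ (τ ξ).invariants : ℕ) : ℂ) =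
      (Nat.card A : ℂ)⁻¹ * ∑ b : A, ξ (-b) * ρ.character (r (Multiplicative.ofAdd b)) := by
    intro ξ
    have := (τ ξ).card_inv_mul_sum_char_eq_finrank
    rw [← this]
    congr 1
    refine Finset.sum_equiv Multiplicative.toAdd (by simp) ?_
    intro g _
    rw [hτ]
    rfl
  simp only [h1]
  have hA : (Nat.card A : ℂ) ≠ 0 := by exact_mod_cast Nat.card_pos.ne'
  have h2 : ∑ ξ : AddChar A ℂ, (Nat.card A : ℂ)⁻¹ *
      (∑ b : A, ξ (-b) * ρ.character (r (Multiplicative.ofAdd b))) * ξ a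
      = (Nat.card A : ℂ)⁻¹ * ∑ b : A, ρ.character (r (Multiplicative.ofAdd b)) *
        ∑ ξ : AddChar A ℂ, ξ (a - b) := by
    simp only [mul_assoc]
    rw [← Finset.mul_sum]
    congr 1
    simp only [Finset.sum_mul, Finset.mul_sum]
    rw [Finset.sum_comm]
    refine Finset.sum_congr rfl fun b _ => Finset.sum_congr rfl fun ξ _ => ?_
    rw [sub_eq_add_neg, AddChar.map_add_eq_mul]
    ring
  rw [h2]
  have h3 : ∀ b : A, ∑ ξ : AddChar A ℂ, ξ (a - b) = if b = a then (Nat.card A : ℂ) else 0 := by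
    intro b
    rw [AddChar.sum_apply_eq_ite]
    by_cases hb : b = a
    · rw [if_pos hb, if_pos (by rw [hb, sub_self]), Nat.card_eq_fintype_card]
    · rw [if_neg hb, if_neg (fun h => hb (sub_eq_zero.mp h).symm)]
  simp only [h3, mul_ite, mul_zero]
  rw [Finset.sum_ite_eq' Finset.univ a]
  simp only [Finset.mem_univ, if_true]
  field_simp

lemma irr_conj_eq_inv {χ : G → ℂ} (h : χ ∈ irrChars G) (g : G) : conj (χ g) = χ g⁻¹ := by
  classical
  have hpos : 0 < orderOf g := orderOf_pos g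
  have : NeZero (orderOf g) := ⟨hpos.ne'⟩
  let f : ZMod (orderOf g) →+ Additive G :=
    ZMod.lift (orderOf g) ⟨zmultiplesHom (Additive G) (Additive.ofMul g), by
      simp [← ofMul_pow, pow_orderOf_eq_one]⟩
  let r : Multiplicative (ZMod (orderOf g)) →* G := AddMonoidHom.toMultiplicativeLeft f
  have hr1 : r (Multiplicative.ofAdd 1) = g := by
    have : f ((1 : ℤ) : ZMod (orderOf g)) = Additive.ofMul g := by
      simp only [f, ZMod.lift_coe]
      simp
    rw [Int.cast_one] at this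
    exact congrArg Additive.toMul this
  obtain ⟨m, hm⟩ := abelian_decomp r h
  have hr2 : r (Multiplicative.ofAdd (-1)) = g⁻¹ := by
    rw [ofAdd_neg, map_inv, hr1]
  rw [← hr2, hm, ← congrArg χ hr1, hm, map_sum]
  refine Finset.sum_congr rfl fun ξ _ => ?_
  rw [map_mul, AddChar.map_neg_eq_conj, Complex.conj_natCast]

/-- The bilinear pairing with a kernel `k` on `G × G`. -/
noncomputable def Q (k : G → G → ℂ) (χ χ' : G → ℂ) : ℂ :=
  ∑ g : G, ∑ h : G, k g h * (χ g * χ' h⁻¹)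

lemma sum4_comm {α β γ δ : Type*} (s : Finset α) (t : Finset β) (u : Finset γ) (v : Finset δ)
    (F : α → β → γ → δ → ℂ) :
    ∑ a ∈ s, ∑ b ∈ t, ∑ c ∈ u, ∑ d ∈ v, F a b c d
      = ∑ c ∈ u, ∑ d ∈ v, ∑ a ∈ s, ∑ b ∈ t, F a b c d := by
  calc ∑ a ∈ s, ∑ b ∈ t, ∑ c ∈ u, ∑ d ∈ v, F a b c d
      = ∑ a ∈ s, ∑ c ∈ u, ∑ b ∈ t, ∑ d ∈ v, F a b c d :=
        Finset.sum_congr rfl fun a _ => Finset.sum_comm
    _ = ∑ c ∈ u, ∑ a ∈ s, ∑ b ∈ t, ∑ d ∈ v, F a b c d := Finset.sum_comm
    _ = ∑ c ∈ u, ∑ a ∈ s, ∑ d ∈ v, ∑ b ∈ t, F a b c d :=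
        Finset.sum_congr rfl fun c _ => Finset.sum_congr rfl fun a _ => Finset.sum_comm
    _ = ∑ c ∈ u, ∑ d ∈ v, ∑ a ∈ s, ∑ b ∈ t, F a b c d :=
        Finset.sum_congr rfl fun c _ => Finset.sum_comm

lemma sum_Q (s : Finset (G → ℂ)) (a b : (G → ℂ) → ℂ) (k : G → G → ℂ) :
    ∑ χ ∈ s, ∑ χ' ∈ s, a χ * b χ' * Q k χ χ'
      = ∑ g : G, ∑ h : G, k g h * ((∑ χ ∈ s, a χ * χ g) * (∑ χ' ∈ s, b χ' * χ' h⁻¹)) := by
  simp only [Q, Finset.mul_sum, Finset.sum_mul]
  rw [sum4_comm]
  refine Finset.sum_congr rfl fun g _ => Finset.sum_congr rfl fun h _ => ?_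
  rw [Finset.sum_comm]
  refine Finset.sum_congr rfl fun χ _ => Finset.sum_congr rfl fun χ' _ => by ring

/-- The indicator of conjugate pairs. -/
noncomputable def conjKer (g h : G) : ℂ := by
  classical exact if IsConj g h then 1 else 0

/-- The sum over conjugate pairs. -/
noncomputable def S (χ χ' : G → ℂ) : ℂ := Q conjKer χ χ'

open Classical in
lemma classCard_eq (g : G) :
    classCard g = (Nat.card (ConjClasses.mk g).carrier : ℂ) := by
  rw [classCard, Nat.card_eq_fintype_card, Fintype.card_subtype]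
  congr 2
  ext h
  rw [Finset.mem_filter, Finset.mem_filter, ConjClasses.mem_carrier_iff_mk_eq,
    ConjClasses.mk_eq_mk_iff_isConj, isConj_comm]

lemma classSum_eq {χ χ' : G → ℂ} (h : χ ∈ irrChars G) (h' : χ' ∈ irrChars G) :
    ∑ᶠ C : ConjClasses G, (Nat.card C.carrier : ℂ) ^ 2 * χ C.out * conj (χ' C.out) = S χ χ' := by
  classical
  have : Fintype (ConjClasses G) := Fintype.ofFinite _
  rw [finsum_eq_sum_of_fintype]
  have h1 : S χ χ' = ∑ g : G, classCard g * (χ g * χ' g⁻¹) := by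
    unfold S Q conjKer
    refine Finset.sum_congr rfl fun g _ => ?_
    simp only [ite_mul, one_mul, zero_mul]
    exact sum_class (ψ := fun h => χ g * χ' h⁻¹) (fun a b hab => by
      have : IsConj a⁻¹ b⁻¹ := by
        obtain ⟨x, rfl⟩ := isConj_iff.mp hab
        exact isConj_iff.mpr ⟨x, by group⟩
      rw [irr_isConj h' this]) g
  rw [h1, ← Finset.sum_fiberwise (s := Finset.univ) (g := fun g : G => ConjClasses.mk g)]
  refine Finset.sum_congr rfl fun C _ => ?_
  have hC : ConjClasses.mk (C.out : G) = C := Quotient.out_eq C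
  rw [Finset.sum_congr rfl (g := fun _ => (Nat.card C.carrier : ℂ) * (χ C.out * χ' (C.out)⁻¹))]
  · rw [Finset.sum_const, nsmul_eq_mul, irr_conj_eq_inv h']
    have : (Finset.univ.filter fun g : G => ConjClasses.mk g = C).card = Nat.card C.carrier := by
      rw [Nat.card_eq_fintype_card, Fintype.card_subtype]
      congr 1
      ext g
      rw [Finset.mem_filter, Finset.mem_filter, ConjClasses.mem_carrier_iff_mk_eq]
    rw [this]
    ring
  · intro g hg
    have hg' : ConjClasses.mk g = C := (Finset.mem_filter.mp hg).2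
    have hc : IsConj g C.out := by
      rw [← ConjClasses.mk_eq_mk_iff_isConj, hC, hg']
    have hc' : IsConj g⁻¹ (C.out)⁻¹ := by
      obtain ⟨x, hx⟩ := isConj_iff.mp hc
      rw [← hx]
      exact isConj_iff.mpr ⟨x, by group⟩
    rw [classCard_eq, hg', irr_isConj h hc, irr_isConj h' hc']

lemma AMZA_eq : AMZA G = 1 / (Nat.card G : ℝ) ^ 2 * ∑ χ ∈ Irr G, ∑ χ' ∈ Irr G,
    (χ 1).re * (χ' 1).re * ‖S χ χ'‖ := by
  unfold AMZA
  congr 1
  refine Finset.sum_congr rfl fun χ hχ => Finset.sum_congr rfl fun χ' hχ' => ?_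
  rw [classSum_eq (mem_Irr.mp hχ) (mem_Irr.mp hχ')]

/-- The indicator of a subgroup of `G × G`. -/
noncomputable def subKer (M : Subgroup (G × G)) (g h : G) : ℂ := by
  classical exact if (g, h) ∈ M then 1 else 0

lemma T_nonneg (M : Subgroup (G × G)) {χ χ' : G → ℂ} (h : χ ∈ irrChars G)
    (h' : χ' ∈ irrChars G) : ∃ t : ℝ, 0 ≤ t ∧ Q (subKer M) χ χ' = t := by
  classical
  obtain ⟨V, _, _, _, ρ, -, rfl⟩ := h
  obtain ⟨W, _, _, _, σ, -, rfl⟩ := h'
  let f : M →* G := (MonoidHom.fst G G).comp M.subtype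
  let f' : M →* G := (MonoidHom.snd G G).comp M.subtype
  let τ₁ : Representation ℂ M V := ρ.comp f
  let τ₂ : Representation ℂ M (Module.Dual ℂ W) := σ.dual.comp f'
  let τ : Representation ℂ M (TensorProduct ℂ V (Module.Dual ℂ W)) :=
    Representation.tprod τ₁ τ₂
  have h1 : ∀ m : M, τ.character m = ρ.character m.1.1 * σ.character (m.1.2)⁻¹ := by
    intro m
    have := congrFun (Representation.char_tensor τ₁ τ₂) m
    rw [Pi.mul_apply] at this
    have h2 : τ₂.character m = σ.character (m.1.2)⁻¹ := σ.char_dual m.1.2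
    rw [h2] at this
    exact this
  have h2 := τ.card_inv_mul_sum_char_eq_finrank
  have h3 : Q (subKer M) ρ.character σ.character = ∑ m : M, τ.character m := by
    unfold Q subKer
    simp only [ite_mul, one_mul, zero_mul]
    rw [← Finset.sum_product', ← Finset.sum_filter]
    symm
    refine Finset.sum_bij (fun m _ => (m.1 : G × G)) ?_ ?_ ?_ ?_
    · intro m _
      exact Finset.mem_filter.mpr ⟨Finset.mem_univ _, m.2⟩
    · intro m _ m' _ hmm
      exact Subtype.ext hmm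
    · intro x hx
      exact ⟨⟨x, (Finset.mem_filter.mp hx).2⟩, Finset.mem_univ _, rfl⟩
    · intro m _
      exact h1 m
  refine ⟨(Nat.card M : ℝ) * (Module.finrank ℂ τ.invariants : ℝ), by positivity, ?_⟩
  rw [h3]
  push_cast
  rw [← h2]
  have : (Nat.card M : ℂ) ≠ 0 := card_ne_zero'
  field_simp

lemma sum_T (M : Subgroup (G × G)) :
    ∑ χ ∈ Irr G, ∑ χ' ∈ Irr G, χ 1 * χ' 1 * Q (subKer M) χ χ' = (Nat.card G : ℂ) ^ 2 := by
  classical
  rw [sum_Q (Irr G) (fun χ => χ 1) (fun χ => χ 1)]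
  have h1 : ∀ g : G, ∑ χ ∈ Irr G, χ 1 * χ g = if g = 1 then (Nat.card G : ℂ) else 0 := by
    intro g
    have := reg_decomp g⁻¹
    simp only [inv_inv, inv_eq_one] at this
    exact this
  simp only [h1]
  rw [Finset.sum_eq_single 1, Finset.sum_eq_single 1]
  · have : subKer M 1 1 = 1 := by
      unfold subKer
      rw [if_pos (show ((1 : G), (1 : G)) ∈ M from M.one_mem)]
    rw [this]
    simp [pow_two]
  · intro h _ hne
    simp [hne]
  · intro h; exact absurd (Finset.mem_univ _) h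
  · intro g _ hne
    simp [hne]
  · intro h; exact absurd (Finset.mem_univ _) h

omit [Fintype G] in
lemma irr_one_re {χ : G → ℂ} (h : χ ∈ irrChars G) : 0 ≤ (χ 1).re ∧ (((χ 1).re : ℝ) : ℂ) = χ 1 := by
  obtain ⟨d, hd⟩ := irr_one h
  rw [hd]
  simp

/-- Upper bound from a decomposition of the conjugacy relation into subgroups of `G × G`. -/
theorem AMZA_le {ι : Type} [Fintype ι] (c : ι → ℝ) (M : ι → Subgroup (G × G))
    (h : ∀ g g' : G, conjKer g g' = ∑ i, (c i : ℂ) * subKer (M i) g g') :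
    AMZA G ≤ ∑ i, |c i| := by
  classical
  rw [AMZA_eq]
  have hQ : ∀ χ χ' : G → ℂ, S χ χ' = ∑ i, (c i : ℂ) * Q (subKer (M i)) χ χ' := by
    intro χ χ'
    unfold S Q
    simp only [h, Finset.sum_mul, Finset.mul_sum]
    rw [Finset.sum_congr rfl fun g _ => Finset.sum_comm]
    rw [Finset.sum_comm]
    refine Finset.sum_congr rfl fun i _ => Finset.sum_congr rfl fun g _ =>
      Finset.sum_congr rfl fun h _ => by ring
  have hb : ∀ χ ∈ Irr G, ∀ χ' ∈ Irr G, (χ 1).re * (χ' 1).re * ‖S χ χ'‖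
      ≤ ∑ i, |c i| * (χ 1 * χ' 1 * Q (subKer (M i)) χ χ').re := by
    intro χ hχ χ' hχ'
    have h1 := irr_one_re (mem_Irr.mp hχ)
    have h2 := irr_one_re (mem_Irr.mp hχ')
    have h3 : ‖S χ χ'‖ ≤ ∑ i, |c i| * (Q (subKer (M i)) χ χ').re := by
      rw [hQ]
      refine (norm_sum_le _ _).trans (Finset.sum_le_sum fun i _ => ?_)
      obtain ⟨t, ht, hte⟩ := T_nonneg (M i) (mem_Irr.mp hχ) (mem_Irr.mp hχ')
      rw [hte, norm_mul, Complex.norm_real, Complex.norm_real, Complex.ofReal_re,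
        Real.norm_eq_abs, Real.norm_of_nonneg ht]
    calc (χ 1).re * (χ' 1).re * ‖S χ χ'‖
        ≤ (χ 1).re * (χ' 1).re * ∑ i, |c i| * (Q (subKer (M i)) χ χ').re :=
          mul_le_mul_of_nonneg_left h3 (mul_nonneg h1.1 h2.1)
      _ = ∑ i, |c i| * (χ 1 * χ' 1 * Q (subKer (M i)) χ χ').re := by
          rw [Finset.mul_sum]
          refine Finset.sum_congr rfl fun i _ => ?_
          rw [← h1.2, ← h2.2, ← Complex.ofReal_mul, Complex.re_ofReal_mul]
          simp only [Complex.ofReal_re]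
          ring
  have hN : (0 : ℝ) < (Nat.card G : ℝ) ^ 2 := by
    have : 0 < Nat.card G := Nat.card_pos
    positivity
  have htot : ∑ χ ∈ Irr G, ∑ χ' ∈ Irr G, (χ 1).re * (χ' 1).re * ‖S χ χ'‖
      ≤ (∑ i, |c i|) * (Nat.card G : ℝ) ^ 2 := by
    refine (Finset.sum_le_sum fun χ hχ => Finset.sum_le_sum fun χ' hχ' => hb χ hχ χ' hχ').trans
      (le_of_eq ?_)
    have h4 : ∀ i, ∑ χ ∈ Irr G, ∑ χ' ∈ Irr G, (χ 1 * χ' 1 * Q (subKer (M i)) χ χ').re
        = (Nat.card G : ℝ) ^ 2 := by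
      intro i
      have := congrArg Complex.re (sum_T (M i))
      rw [Complex.re_sum] at this
      simp only [Complex.re_sum] at this
      rw [this]
      have h5 : ((Nat.card G : ℂ) ^ 2) = (((Nat.card G : ℝ) ^ 2 : ℝ) : ℂ) := by push_cast; rfl
      rw [h5, Complex.ofReal_re]
    rw [Finset.sum_mul]
    rw [Finset.sum_congr rfl fun χ _ => Finset.sum_comm]
    rw [Finset.sum_comm]
    refine Finset.sum_congr rfl fun i _ => ?_
    rw [← h4 i]
    simp only [Finset.mul_sum]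
  rw [one_div, inv_mul_le_iff₀ hN]
  linarith

lemma classCard_ne_zero (x : G) : classCard x ≠ 0 := by
  classical
  unfold classCard
  have : 0 < (Finset.univ.filter fun g : G => IsConj x g).card :=
    Finset.card_pos.mpr ⟨x, Finset.mem_filter.mpr ⟨Finset.mem_univ _, IsConj.refl x⟩⟩
  exact_mod_cast this.ne'

lemma classCard_congr {x y : G} (h : IsConj x y) : classCard x = classCard y := by
  rw [classCard_eq, classCard_eq, ConjClasses.mk_eq_mk_iff_isConj.mpr h]

lemma conjKer_of {x y : G} (h : IsConj x y) : conjKer x y = 1 := by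
  unfold conjKer; rw [if_pos h]

lemma conjKer_of_not {x y : G} (h : ¬ IsConj x y) : conjKer x y = 0 := by
  unfold conjKer; rw [if_neg h]

lemma sum_conjKer (x : G) : ∑ g : G, conjKer x g = classCard x := by
  classical
  have := sum_class (ψ := fun _ : G => (1 : ℂ)) (fun _ _ _ => rfl) x
  rw [mul_one] at this
  exact this

lemma col1 (g x : G) : ∑ χ ∈ Irr G, χ x⁻¹ * χ g = conjKer x g * ((Nat.card G : ℂ) / classCard x) := by
  classical
  have h := column_orth g x
  have h' : ∑ χ ∈ Irr G, χ x⁻¹ * χ g = ∑ χ ∈ Irr G, χ g * χ x⁻¹ :=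
    Finset.sum_congr rfl fun χ _ => mul_comm _ _
  rw [h']
  by_cases hc : IsConj g x
  · rw [if_pos hc, classCard_congr hc] at h
    rw [conjKer_of hc.symm, one_mul, eq_div_iff (classCard_ne_zero x), mul_comm]
    exact h
  · rw [if_neg hc] at h
    rw [conjKer_of_not (fun h => hc h.symm), zero_mul]
    exact (mul_eq_zero.mp h).resolve_left (classCard_ne_zero g)

lemma col2 (y h : G) : ∑ χ ∈ Irr G, χ y * χ h⁻¹ = conjKer y h * ((Nat.card G : ℂ) / classCard y) := by
  classical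
  have h0 := column_orth y h
  by_cases hc : IsConj y h
  · rw [if_pos hc] at h0
    rw [conjKer_of hc, one_mul, eq_div_iff (classCard_ne_zero y), mul_comm]
    exact h0
  · rw [if_neg hc] at h0
    rw [conjKer_of_not hc, zero_mul]
    exact (mul_eq_zero.mp h0).resolve_left (classCard_ne_zero y)

lemma key_pair (x y : G) :
    ∑ g : G, ∑ h : G, conjKer g h * ((∑ χ ∈ Irr G, χ x⁻¹ * χ g) * (∑ χ ∈ Irr G, χ y * χ h⁻¹))
      = (Nat.card G : ℂ) ^ 2 * conjKer x y := by
  simp only [col1, col2]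
  have hx := classCard_ne_zero x
  have hy := classCard_ne_zero y
  have h1 : ∀ g h : G, conjKer g h * ((conjKer x g * ((Nat.card G : ℂ) / classCard x)) *
      (conjKer y h * ((Nat.card G : ℂ) / classCard y)))
      = conjKer x y * ((Nat.card G : ℂ) ^ 2 / (classCard x * classCard y)) *
        (conjKer x g * conjKer y h) := by
    intro g h
    by_cases hg : IsConj x g
    · by_cases hh : IsConj y h
      · have : conjKer g h = conjKer x y := by
          by_cases hxy : IsConj x y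
          · rw [conjKer_of hxy, conjKer_of ((hg.symm.trans hxy).trans hh)]
          · rw [conjKer_of_not hxy, conjKer_of_not]
            intro hgh
            exact hxy ((hg.trans hgh).trans hh.symm)
        rw [this]
        field_simp
      · rw [conjKer_of_not hh]; ring
    · rw [conjKer_of_not hg]; ring
  simp only [h1]
  rw [Finset.sum_congr rfl fun g _ => (Finset.mul_sum _ _ _).symm, ← Finset.mul_sum]
  rw [Finset.sum_congr rfl fun g _ => (Finset.mul_sum _ _ _).symm, ← Finset.sum_mul,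
    sum_conjKer, sum_conjKer]
  field_simp

/-- Lower bound by testing against a function on a finite abelian group. -/
theorem le_AMZA {A : Type} [AddCommGroup A] [Fintype A] (r : Multiplicative A →* G)
    (u : A → A → ℂ)
    (hu : ∀ ξ η : AddChar A ℂ, ‖∑ a, ∑ b, u a b * (ξ a * η b)‖ ≤ 1) :
    ‖∑ a, ∑ b, u a b * conjKer (r (Multiplicative.ofAdd a)) (r (Multiplicative.ofAdd b))‖
      ≤ AMZA G := by
  classical
  have hN : (0 : ℝ) < (Nat.card G : ℝ) ^ 2 := by
    have : 0 < Nat.card G := Nat.card_pos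
    positivity
  set rr : A → G := fun a => r (Multiplicative.ofAdd a) with hrr
  let t : (G → ℂ) → (G → ℂ) → ℂ := fun χ χ' => ∑ a, ∑ b, u a b * (χ (rr a)⁻¹ * χ' (rr b))
  have h1 : ∑ χ ∈ Irr G, ∑ χ' ∈ Irr G, t χ χ' * S χ χ'
      = (Nat.card G : ℂ) ^ 2 * ∑ a, ∑ b, u a b * conjKer (rr a) (rr b) := by
    have h2 : ∀ a b : A, ∑ χ ∈ Irr G, ∑ χ' ∈ Irr G, (χ (rr a)⁻¹ * χ' (rr b)) * S χ χ'
        = (Nat.card G : ℂ) ^ 2 * conjKer (rr a) (rr b) := by
      intro a b
      unfold S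
      rw [sum_Q (Irr G) (fun χ => χ (rr a)⁻¹) (fun χ => χ (rr b))]
      exact key_pair _ _
    have h3 : ∑ χ ∈ Irr G, ∑ χ' ∈ Irr G, t χ χ' * S χ χ'
        = ∑ a, ∑ b, u a b * ∑ χ ∈ Irr G, ∑ χ' ∈ Irr G, (χ (rr a)⁻¹ * χ' (rr b)) * S χ χ' := by
      simp only [t, Finset.sum_mul, Finset.mul_sum]
      rw [sum4_comm]
      refine Finset.sum_congr rfl fun a _ => Finset.sum_congr rfl fun b _ =>
        Finset.sum_congr rfl fun χ _ => Finset.sum_congr rfl fun χ' _ => by ring
    rw [h3]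
    simp only [h2, Finset.mul_sum]
    refine Finset.sum_congr rfl fun a _ => Finset.sum_congr rfl fun b _ => by ring
  have ht : ∀ χ ∈ Irr G, ∀ χ' ∈ Irr G, ‖t χ χ'‖ ≤ (χ 1).re * (χ' 1).re := by
    intro χ hχ χ' hχ'
    obtain ⟨m, hm⟩ := abelian_decomp r (mem_Irr.mp hχ)
    obtain ⟨m', hm'⟩ := abelian_decomp r (mem_Irr.mp hχ')
    have e1 : ∀ a, χ (rr a)⁻¹ = ∑ ξ : AddChar A ℂ, (m ξ : ℂ) * ξ⁻¹ a := by
      intro a
      have : (rr a)⁻¹ = r (Multiplicative.ofAdd (-a)) := by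
        rw [ofAdd_neg, map_inv]
      rw [this, hm]
      refine Finset.sum_congr rfl fun ξ _ => ?_
      rw [AddChar.inv_apply]
    have e2 : ∀ b, χ' (rr b) = ∑ η : AddChar A ℂ, (m' η : ℂ) * η b := fun b => hm' b
    have e3 : (χ 1).re = ∑ ξ : AddChar A ℂ, (m ξ : ℝ) := by
      have := hm 0
      rw [ofAdd_zero, map_one] at this
      rw [this]
      simp
    have e4 : (χ' 1).re = ∑ ξ : AddChar A ℂ, (m' ξ : ℝ) := by
      have := hm' 0
      rw [ofAdd_zero, map_one] at this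
      rw [this]
      simp
    have e5 : t χ χ' = ∑ ξ : AddChar A ℂ, ∑ η : AddChar A ℂ, ((m ξ : ℂ) * (m' η : ℂ)) *
        ∑ a, ∑ b, u a b * (ξ⁻¹ a * η b) := by
      simp only [t, e1, e2, Finset.sum_mul, Finset.mul_sum]
      rw [sum4_comm]
      rw [Finset.sum_comm]
      refine Finset.sum_congr rfl fun η _ => Finset.sum_congr rfl fun ξ _ =>
        Finset.sum_congr rfl fun a _ => Finset.sum_congr rfl fun b _ => by ring
    rw [e5, e3, e4, Finset.sum_mul]
    refine (norm_sum_le _ _).trans (Finset.sum_le_sum fun ξ _ => ?_)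
    rw [Finset.mul_sum]
    refine (norm_sum_le _ _).trans (Finset.sum_le_sum fun η _ => ?_)
    rw [norm_mul, norm_mul, Complex.norm_natCast, Complex.norm_natCast]
    calc (m ξ : ℝ) * (m' η : ℝ) * ‖∑ a, ∑ b, u a b * (ξ⁻¹ a * η b)‖
        ≤ (m ξ : ℝ) * (m' η : ℝ) * 1 :=
          mul_le_mul_of_nonneg_left (hu ξ⁻¹ η) (by positivity)
      _ = _ := mul_one _
  have h5 : (Nat.card G : ℝ) ^ 2 * ‖∑ a, ∑ b, u a b * conjKer (rr a) (rr b)‖
      ≤ (Nat.card G : ℝ) ^ 2 * AMZA G := by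
    have e6 : (Nat.card G : ℝ) ^ 2 * ‖∑ a, ∑ b, u a b * conjKer (rr a) (rr b)‖
        = ‖∑ χ ∈ Irr G, ∑ χ' ∈ Irr G, t χ χ' * S χ χ'‖ := by
      rw [h1, norm_mul, norm_pow, Complex.norm_natCast]
    rw [e6, AMZA_eq, ← mul_assoc, mul_one_div_cancel hN.ne', one_mul]
    refine (norm_sum_le _ _).trans (Finset.sum_le_sum fun χ hχ => ?_)
    refine (norm_sum_le _ _).trans (Finset.sum_le_sum fun χ' hχ' => ?_)
    rw [norm_mul]
    exact mul_le_mul_of_nonneg_right (ht χ hχ χ' hχ') (norm_nonneg _)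
  exact le_of_mul_le_mul_left h5 hN

end Pool.Agent.helper4.Amza
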