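import Mathlib
import Pool.Agent.helper4.Amza.Bounds

/-!
The sharply 2-transitive groups over fields of order `p ^ 2`.
-/

namespace Pool.Agent.helper4.Amza

/-- Standing assumption: `F` is a field with `p ^ 2` elements, `p` an odd prime. -/
class Good (p : ℕ) (F : Type) [Field F] [Fintype F] : Prop where
  prime : p.Prime
  odd : p ≠ 2
  card : Fintype.card F = p ^ 2

section

variable (p : ℕ) (F : Type) [Field F] [Fintype F] [hg : Good p F]

include hg

lemma charP : CharP F p := by
  have : Fact p.Prime := ⟨hg.prime⟩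
  exact charP_of_card_eq_prime_pow (f := 2) hg.card

/-- `k = (p + 1) / 2`. -/
def kk (p : ℕ) : ℕ := (p + 1) / 2

lemma kk_spec : p + 1 = 2 * kk p ∧ 2 ≤ kk p := by
  obtain ⟨m, hm⟩ := hg.prime.eq_two_or_odd'.resolve_left hg.odd
  have := hg.prime.two_le
  unfold kk
  omega

/-- `e = (p ^ 2 - 1) / 2 = (p - 1) * k`. -/
def ee (p : ℕ) : ℕ := (p - 1) * kk p

lemma two_ee : p * p = 2 * ee p + 1 := by
  obtain ⟨h1, h2⟩ := kk_spec p F
  have h3 : 1 ≤ p := hg.prime.one_lt.le
  unfold ee
  obtain ⟨m, rfl⟩ : ∃ m, p = m + 1 := ⟨p - 1, by omega⟩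
  have h4 : 2 * (m * kk (m + 1)) = m * (m + 1 + 1) := by rw [h1]; ring
  simp only [Nat.add_sub_cancel]
  nlinarith

lemma ee_pos : 0 < ee p := by
  obtain ⟨h1, h2⟩ := kk_spec p F
  have := hg.prime.two_le
  unfold ee
  exact Nat.mul_pos (by omega) (by omega)

lemma pow_pp (a : F) : a ^ (p * p) = a := by
  rw [← pow_two, ← hg.card]
  exact FiniteField.pow_card a

lemma unit_pow_two_ee (a : Fˣ) : a ^ (2 * ee p) = 1 := by
  have h := pow_pp p F (a : F)
  rw [two_ee p F, pow_succ] at h
  have h2 : (a : F) ^ (2 * ee p) = 1 := by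
    have := a.ne_zero
    exact mul_right_cancel₀ this (by rw [h, one_mul])
  exact Units.ext (by push_cast; exact h2)

lemma neg_one_ne_one : (-1 : F) ≠ 1 := by
  have := charP p F
  have h2 : (2 : F) ≠ 0 := by
    intro h
    have h3 : ((2 : ℕ) : F) = 0 := by exact_mod_cast h
    rw [CharP.cast_eq_zero_iff F p] at h3
    have := (Nat.prime_dvd_prime_iff_eq hg.prime Nat.prime_two).mp h3
    exact hg.odd this
  intro h
  apply h2
  linear_combination -h

/-- `y` is a square, expressed by Euler's criterion. -/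
def sq (p : ℕ) {F : Type} [Field F] (y : Fˣ) : Prop := y ^ ee p = 1

lemma not_sq {y : Fˣ} (h : ¬ sq p y) : y ^ ee p = -1 := by
  have h1 : (y ^ ee p) * (y ^ ee p) = 1 := by
    rw [← pow_add, ← two_mul]; exact unit_pow_two_ee p F y
  have h2 : ((y ^ ee p : Fˣ) : F) * ((y ^ ee p : Fˣ) : F) = 1 := by
    rw [← Units.val_mul, h1, Units.val_one]
  rcases mul_self_eq_one_iff.mp h2 with h3 | h3
  · exact absurd (Units.ext (by rw [h3, Units.val_one])) h
  · exact Units.ext (by rw [h3, Units.val_neg, Units.val_one])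

lemma unit_neg_one_ne_one : (-1 : Fˣ) ≠ 1 := by
  intro h
  apply neg_one_ne_one p F
  have := congrArg Units.val h
  rwa [Units.val_neg, Units.val_one] at this

lemma sq_iff_ne {y : Fˣ} : sq p y ↔ ¬ y ^ ee p = -1 := by
  constructor
  · intro h h'
    rw [h] at h'
    exact unit_neg_one_ne_one p F h'.symm
  · intro h
    by_contra h'
    exact h (not_sq p F h')

lemma odd_p : Odd p := hg.prime.eq_two_or_odd'.resolve_left hg.odd

lemma sq_mul (y z : Fˣ) : sq p (y * z) ↔ (sq p y ↔ sq p z) := by
  unfold sq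
  rw [mul_pow]
  have hne := unit_neg_one_ne_one p F
  by_cases hy : sq p y <;> by_cases hz : sq p z
  · have h1 : y ^ ee p = 1 := hy
    have h2 : z ^ ee p = 1 := hz
    simp [h1, h2]
  · have h1 : y ^ ee p = 1 := hy
    have h2 := not_sq p F hz
    simp [h1, h2, hne]
  · have h1 := not_sq p F hy
    have h2 : z ^ ee p = 1 := hz
    simp [h1, h2, hne]
  · have h1 := not_sq p F hy
    have h2 := not_sq p F hz
    simp [h1, h2, hne]

lemma sq_pow_p (y : Fˣ) : sq p (y ^ p) ↔ sq p y := by
  unfold sq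
  rw [← pow_mul, mul_comm, pow_mul]
  by_cases hy : sq p y
  · have h1 : y ^ ee p = 1 := hy
    simp [h1]
  · have h1 := not_sq p F hy
    rw [h1, (odd_p p F).neg_one_pow]

/-- The Frobenius automorphism. -/
noncomputable def frob : RingAut F := by
  haveI := charP p F
  haveI : Fact p.Prime := ⟨hg.prime⟩
  haveI : ExpChar F p := ExpChar.prime hg.prime
  haveI : PerfectRing F p := PerfectRing.ofFiniteOfIsReduced p F
  exact frobeniusEquiv F p

lemma frob_apply (a : F) : frob p F a = a ^ p := rfl

lemma frob_frob (a : F) : frob p F (frob p F a) = a := by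
  rw [frob_apply, frob_apply, ← pow_mul, pow_pp]

open Classical in
/-- The twist. -/
noncomputable def tau : Fˣ →* RingAut F where
  toFun y := if sq p y then 1 else frob p F
  map_one' := by
    have : sq p (1 : Fˣ) := one_pow _
    rw [if_pos this]
  map_mul' y z := by
    have h := sq_mul p F y z
    by_cases hy : sq p y <;> by_cases hz : sq p z
    · rw [if_pos (h.mpr ⟨fun _ => hz, fun _ => hy⟩), if_pos hy, if_pos hz, one_mul]
    · rw [if_neg (fun h' => hz ((h.mp h').mp hy)), if_pos hy, if_neg hz, one_mul]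
    · rw [if_neg (fun h' => hy ((h.mp h').mpr hz)), if_neg hy, if_pos hz, mul_one]
    · rw [if_pos (h.mpr ⟨fun h' => absurd h' hy, fun h' => absurd h' hz⟩), if_neg hy, if_neg hz]
      ext a
      exact (frob_frob p F a).symm

open Classical in
lemma tau_sq {y : Fˣ} (h : sq p y) (a : F) : tau p F y a = a := by
  show (if sq p y then (1 : RingAut F) else frob p F) a = a
  rw [if_pos h]; rfl

open Classical in
lemma tau_nsq {y : Fˣ} (h : ¬ sq p y) (a : F) : tau p F y a = a ^ p := by
  show (if sq p y then (1 : RingAut F) else frob p F) a = a ^ p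
  rw [if_neg h]; rfl

omit [Fintype F] hg in
lemma sq_inv (y : Fˣ) : sq p y⁻¹ ↔ sq p y := by
  unfold sq
  rw [inv_pow, inv_eq_one]

lemma tau_inv (y : Fˣ) : tau p F y⁻¹ = tau p F y := by
  have h := sq_inv p F y
  ext a
  by_cases hy : sq p y
  · rw [tau_sq p F hy, tau_sq p F (h.mpr hy)]
  · rw [tau_nsq p F hy, tau_nsq p F (fun h' => hy (h.mp h'))]

/-- The twist on units. -/
noncomputable def tu (y : Fˣ) : Fˣ →* Fˣ := Units.map (tau p F y : F →* F)

lemma tu_val (y z : Fˣ) : ((tu p F y z : Fˣ) : F) = tau p F y z := rfl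

lemma tu_sq {y : Fˣ} (h : sq p y) (z : Fˣ) : tu p F y z = z :=
  Units.ext (by rw [tu_val, tau_sq p F h])

lemma tu_nsq {y : Fˣ} (h : ¬ sq p y) (z : Fˣ) : tu p F y z = z ^ p :=
  Units.ext (by rw [tu_val, tau_nsq p F h, Units.val_pow_eq_pow_val])

lemma sq_tu (y z : Fˣ) : sq p (tu p F y z) ↔ sq p z := by
  by_cases h : sq p y
  · rw [tu_sq p F h]
  · rw [tu_nsq p F h, sq_pow_p]

lemma tau_tu (y z : Fˣ) : tau p F (tu p F y z) = tau p F z := by
  have h := sq_tu p F y z
  ext a
  by_cases hz : sq p z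
  · rw [tau_sq p F hz, tau_sq p F (h.mpr hz)]
  · rw [tau_nsq p F hz, tau_nsq p F (fun h' => hz (h.mp h'))]

end

/-- Elements of the sharply 2-transitive group: the map `a ↦ y * τ_y a + b`. -/
@[ext] structure NF (p : ℕ) (F : Type) [Field F] where
  /-- the multiplier -/
  y : Fˣ
  /-- the translation part -/
  b : F

namespace NF

variable {p : ℕ} {F : Type} [Field F] [Fintype F] [hg : Good p F]

noncomputable instance : Mul (NF p F) := ⟨fun g h => ⟨g.y * tu p F g.y h.y, g.y * tau p F g.y h.b + g.b⟩⟩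

instance : One (NF p F) := ⟨⟨1, 0⟩⟩

noncomputable instance : Inv (NF p F) :=
  ⟨fun g => ⟨tu p F g.y g.y⁻¹, - tau p F g.y ((g.y⁻¹ : Fˣ) * g.b)⟩⟩

lemma mul_y (g h : NF p F) : (g * h).y = g.y * tu p F g.y h.y := rfl
lemma mul_b (g h : NF p F) : (g * h).b = g.y * tau p F g.y h.b + g.b := rfl
omit [Fintype F] hg in
lemma one_y : (1 : NF p F).y = 1 := rfl
omit [Fintype F] hg in
lemma one_b : (1 : NF p F).b = 0 := rfl
lemma inv_y (g : NF p F) : (g⁻¹).y = tu p F g.y g.y⁻¹ := rfl
lemma inv_b (g : NF p F) : (g⁻¹).b = - tau p F g.y ((g.y⁻¹ : Fˣ) * g.b) := rfl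

noncomputable instance : Group (NF p F) where
  mul_assoc g h k := by
    apply NF.ext
    · simp only [mul_y]
      apply Units.ext
      simp only [Units.val_mul, tu_val, map_mul, tau_tu, RingAut.mul_apply]
      ring
    · simp only [mul_y, mul_b, map_mul, tau_tu, map_add, RingAut.mul_apply, Units.val_mul, tu_val]
      ring
  one_mul g := by
    apply NF.ext
    · apply Units.ext
      simp [mul_y, one_y, tu_val]
    · simp [mul_b, one_y, one_b]
  mul_one g := by
    apply NF.ext
    · simp [mul_y, one_y]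
    · simp [mul_b, one_b]
  inv_mul_cancel g := by
    apply NF.ext
    · apply Units.ext
      simp only [mul_y, inv_y, one_y, Units.val_mul, tu_val, tau_tu]
      rw [tau_inv, ← map_mul, ← Units.val_mul, inv_mul_cancel]
      simp
    · simp only [mul_b, inv_y, inv_b, one_b, tu_val, tau_tu]
      rw [tau_inv, ← map_mul, add_neg_cancel]

instance : Finite (NF p F) :=
  Finite.of_injective (fun g : NF p F => (g.y, g.b)) (fun g h hgh => by
    simp only [Prod.mk.injEq] at hgh
    exact NF.ext hgh.1 hgh.2)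

lemma conj_eq {x g h : NF p F} (hx : x * g = h * x) : IsConj g h :=
  isConj_iff.mpr ⟨x, by rw [hx]; group⟩

lemma exists_conj {g h : NF p F} (hx : IsConj g h) : ∃ x, x * g = h * x := by
  obtain ⟨x, rfl⟩ := isConj_iff.mp hx
  exact ⟨x, by group⟩

end NF

section

variable (p : ℕ) (F : Type) [Field F] [Fintype F] [hg : Good p F]

include hg

lemma card_units : Nat.card Fˣ = 2 * ee p := by
  rw [Nat.card_units, Nat.card_eq_fintype_card, hg.card, pow_two, two_ee p F, Nat.add_sub_cancel]

lemma exists_gen : ∃ z : Fˣ, orderOf z = 2 * ee p ∧ ∀ v : Fˣ, ∃ j : ℕ, z ^ j = v := by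
  obtain ⟨z, hz⟩ := IsCyclic.exists_generator (α := Fˣ)
  refine ⟨z, ?_, fun v => ?_⟩
  · rw [orderOf_eq_card_of_forall_mem_zpowers hz, card_units p F]
  · exact (mem_powers_iff_mem_zpowers (x := z)).mpr (hz v)

lemma exists_nsq : ∃ w : Fˣ, ¬ sq p w := by
  obtain ⟨z, hz, -⟩ := exists_gen p F
  refine ⟨z, fun h => ?_⟩
  have h1 : orderOf z ∣ ee p := orderOf_dvd_of_pow_eq_one h
  rw [hz] at h1
  have := Nat.le_of_dvd (ee_pos p F) h1
  have := ee_pos p F
  omega

lemma K_lift {v : Fˣ} (hv : v ^ kk p = 1) : ∃ u : Fˣ, sq p u ∧ v = u ^ (p - 1) := by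
  obtain ⟨z, hz, hgen⟩ := exists_gen p F
  obtain ⟨j, hj⟩ := hgen v
  have h3 : z ^ (j * kk p) = 1 := by rw [pow_mul, hj, hv]
  have h4 : 2 * ee p ∣ j * kk p := hz ▸ orderOf_dvd_of_pow_eq_one h3
  have h5 : (2 * (p - 1)) * kk p ∣ j * kk p := by
    have : (2 * (p - 1)) * kk p = 2 * ee p := by unfold ee; ring
    rw [this]; exact h4
  have hk : 0 < kk p := by have := (kk_spec p F).2; omega
  obtain ⟨i, hi⟩ := Nat.dvd_of_mul_dvd_mul_right hk h5
  refine ⟨z ^ (2 * i), ?_, ?_⟩
  · unfold sq
    have h6 : 2 * i * ee p = (2 * ee p) * i := by ring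
    rw [← pow_mul, h6, pow_mul, unit_pow_two_ee, one_pow]
  · rw [← hj, hi, ← pow_mul]
    congr 1
    ring

omit [Fintype F] hg in
lemma sq_of_K {v : Fˣ} (hv : v ^ kk p = 1) : sq p v := by
  unfold sq ee
  rw [mul_comm, pow_mul, hv, one_pow]

lemma pow_p_eq (w : Fˣ) : w ^ p = w * w ^ (p - 1) := by
  rw [← pow_succ', Nat.sub_add_cancel hg.prime.one_lt.le]

omit [Fintype F] hg in
lemma pow_sub_K (w : Fˣ) : (w ^ (p - 1)) ^ kk p = w ^ ee p := by
  unfold ee
  rw [← pow_mul]

lemma fixed_free {y a : Fˣ} (h : a = y * tu p F y a) : y = 1 := by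
  by_cases hy : sq p y
  · rw [tu_sq p F hy] at h
    exact (mul_eq_right.mp h.symm)
  · exfalso
    rw [tu_nsq p F hy, pow_p_eq p F] at h
    have h1 : y * a ^ (p - 1) = 1 := by
      have h2 : a * 1 = a * (y * a ^ (p - 1)) := by
        rw [mul_one]; nth_rewrite 1 [h]; ac_rfl
      exact (mul_left_cancel h2).symm
    have h3 : sq p (a ^ (p - 1)) := by
      unfold sq
      obtain ⟨m, hm⟩ := odd_p p F
      rw [← pow_mul, hm, Nat.add_sub_cancel, mul_right_comm, pow_mul]
      have : a ^ (2 * ee (2 * m + 1)) = 1 := by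
        rw [← hm]; exact unit_pow_two_ee p F a
      rw [this, one_pow]
    have h4 : sq p (y * a ^ (p - 1)) := by rw [h1]; exact one_pow _
    exact hy (((sq_mul p F _ _).mp h4).mpr h3)

end

namespace NF

variable {p : ℕ} {F : Type} [Field F] [Fintype F] [hg : Good p F]

/-- Elements with multiplier different from `1` are conjugate under translations. -/
lemma conj_translate {y : Fˣ} (hy : y ≠ 1) (b c : F) : IsConj (⟨y, b⟩ : NF p F) ⟨y, c⟩ := by
  have hinj : Function.Injective (fun a : F => a - y * tau p F y a) := by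
    intro a a' haa
    simp only at haa
    by_contra hne
    have hd : a - a' ≠ 0 := sub_ne_zero.mpr hne
    apply hy
    apply fixed_free p F (a := Units.mk0 (a - a') hd)
    apply Units.ext
    rw [Units.val_mul, tu_val, Units.val_mk0, map_sub]
    linear_combination haa
  obtain ⟨a, ha⟩ := (Finite.injective_iff_surjective.mp hinj) (c - b)
  simp only at ha
  apply conj_eq (x := ⟨1, a⟩)
  apply NF.ext
  · apply Units.ext
    simp [mul_y, tu_val]
  · simp only [mul_b, map_one, RingAut.one_apply, Units.val_one, one_mul]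
    linear_combination ha

lemma conj_iff (g h : NF p F) : IsConj g h ↔
    (g.y = 1 ∧ h.y = 1 ∧ (g.b = 0 ↔ h.b = 0)) ∨
    (g.y ≠ 1 ∧ sq p g.y ∧ (h.y = g.y ∨ h.y = g.y ^ p)) ∨
    (¬ sq p g.y ∧ (h.y / g.y) ^ kk p = 1) := by
  constructor
  · intro hc
    obtain ⟨x, hx⟩ := exists_conj hc
    have hy : x.y * tu p F x.y g.y = h.y * tu p F h.y x.y := congrArg NF.y hx
    have hb : x.y * tau p F x.y g.b + x.b = h.y * tau p F h.y x.b + h.b := congrArg NF.b hx
    have hsq : sq p g.y ↔ sq p h.y := by
      have h1 : sq p (x.y * tu p F x.y g.y) ↔ sq p (h.y * tu p F h.y x.y) := by rw [hy]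
      rw [sq_mul, sq_mul, sq_tu, sq_tu] at h1
      tauto
    by_cases hg : sq p g.y
    · have hh := hsq.mp hg
      rw [tu_sq p F hh, mul_comm] at hy
      have hy' : tu p F x.y g.y = h.y := mul_right_cancel hy
      by_cases hg1 : g.y = 1
      · left
        have hh1 : h.y = 1 := by rw [← hy', hg1, map_one]
        refine ⟨hg1, hh1, ?_⟩
        rw [hh1] at hb
        simp only [map_one, RingAut.one_apply, Units.val_one, one_mul] at hb
        have hb' : h.b = x.y * tau p F x.y g.b := by linear_combination -hb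
        rw [hb']
        simp
      · right; left
        refine ⟨hg1, hg, ?_⟩
        by_cases hxs : sq p x.y
        · left; rw [← hy', tu_sq p F hxs]
        · right; rw [← hy', tu_nsq p F hxs]
    · right; right
      refine ⟨hg, ?_⟩
      have hh : ¬ sq p h.y := fun h' => hg (hsq.mpr h')
      rw [tu_nsq p F hh, pow_p_eq p F x.y] at hy
      by_cases hxs : sq p x.y
      · rw [tu_sq p F hxs] at hy
        have h1 : h.y / g.y * x.y ^ (p - 1) = 1 := by
          have h2 : g.y = h.y * x.y ^ (p - 1) := by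
            apply mul_left_cancel (a := x.y)
            rw [hy]; ac_rfl
          rw [div_mul_eq_mul_div, ← h2, div_self']
        have h3 : h.y / g.y = (x.y ^ (p - 1))⁻¹ := eq_inv_of_mul_eq_one_left h1
        rw [h3, inv_pow, pow_sub_K p F, show x.y ^ ee p = 1 from hxs, inv_one]
      · rw [tu_nsq p F hxs, pow_p_eq p F g.y] at hy
        have h1 : h.y / g.y * x.y ^ (p - 1) = g.y ^ (p - 1) := by
          have h2 : g.y * g.y ^ (p - 1) = h.y * x.y ^ (p - 1) := by
            apply mul_left_cancel (a := x.y)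
            rw [hy]; ac_rfl
          rw [div_mul_eq_mul_div, ← h2, mul_div_cancel_left]
        have h3 : h.y / g.y = g.y ^ (p - 1) * (x.y ^ (p - 1))⁻¹ := by
          rw [← h1, mul_inv_cancel_right]
        rw [h3, mul_pow, inv_pow, pow_sub_K p F, pow_sub_K p F, not_sq p F hxs, not_sq p F hg,
          mul_inv_cancel]
  · rintro (⟨h1, h2, h3⟩ | ⟨h1, h2, h3⟩ | ⟨h1, h2⟩)
    · by_cases hb : g.b = 0
      · have : g = h := NF.ext (h1.trans h2.symm) (by rw [hb, h3.mp hb])
        rw [this]
      · have hc : h.b ≠ 0 := fun h' => hb (h3.mpr h')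
        have key : ∃ y : Fˣ, (y : F) * tau p F y g.b = h.b := by
          set b := Units.mk0 g.b hb with hbdef
          set c := Units.mk0 h.b hc with hcdef
          by_cases hs : sq p (c / b)
          · refine ⟨c / b, ?_⟩
            rw [tau_sq p F hs]
            have : ((c / b * b : Fˣ) : F) = c := by rw [div_mul_cancel]
            rw [Units.val_mul] at this
            exact this
          · have hs2 : ¬ sq p (c / b ^ p) := by
              rw [div_eq_mul_inv, sq_mul, sq_inv, sq_pow_p]
              rw [div_eq_mul_inv, sq_mul, sq_inv] at hs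
              exact hs
            refine ⟨c / b ^ p, ?_⟩
            rw [tau_nsq p F hs2]
            have : ((c / b ^ p * b ^ p : Fˣ) : F) = c := by rw [div_mul_cancel]
            rw [Units.val_mul, Units.val_pow_eq_pow_val] at this
            exact this
        obtain ⟨y, hy⟩ := key
        apply conj_eq (x := ⟨y, 0⟩)
        apply NF.ext
        · show y * tu p F y g.y = h.y * tu p F h.y y
          rw [h1, h2, map_one, tu_sq p F (one_pow _), mul_comm]
        · simp [mul_b, h2, hy]
    · have hh : sq p h.y := by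
        rcases h3 with h3 | h3
        · rw [h3]; exact h2
        · rw [h3, sq_pow_p]; exact h2
      have hh1 : h.y ≠ 1 := by
        rcases h3 with h3 | h3
        · rw [h3]; exact h1
        · intro h4
          apply h1
          have h5 : g.y ^ (p * p) = 1 := by rw [pow_mul, ← h3, h4, one_pow]
          rw [two_ee p F, pow_succ, unit_pow_two_ee, one_mul] at h5
          exact h5
      have a1 : IsConj g (⟨g.y, 0⟩ : NF p F) := conj_translate h1 g.b 0
      have a3 : IsConj (⟨h.y, 0⟩ : NF p F) h := conj_translate hh1 0 h.b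
      refine a1.trans (IsConj.trans ?_ a3)
      rcases h3 with h3 | h3
      · rw [h3]
      · obtain ⟨w, hw⟩ := exists_nsq p F
        apply conj_eq (x := ⟨w, 0⟩)
        apply NF.ext
        · show w * tu p F w g.y = h.y * tu p F h.y w
          rw [tu_nsq p F hw, tu_sq p F hh, h3, mul_comm]
        · simp [mul_b]
    · obtain ⟨u, hu, hv⟩ := K_lift p F h2
      have hy1 : g.y ≠ 1 := by
        intro h'
        apply h1
        rw [h']
        exact one_pow _
      have hh : ¬ sq p h.y := by
        intro h'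
        apply h1
        have := sq_of_K p F h2
        rw [div_eq_mul_inv, sq_mul, sq_inv] at this
        exact this.mp h'
      have hh1 : h.y ≠ 1 := by
        intro h'
        apply hh
        rw [h']
        exact one_pow _
      have a1 : IsConj g (⟨g.y, 0⟩ : NF p F) := conj_translate hy1 g.b 0
      have a3 : IsConj (⟨h.y, 0⟩ : NF p F) h := conj_translate hh1 0 h.b
      refine a1.trans (IsConj.trans ?_ a3)
      have hus : sq p u⁻¹ := (sq_inv p F u).mpr hu
      apply conj_eq (x := ⟨u⁻¹, 0⟩)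
      apply NF.ext
      · show u⁻¹ * tu p F u⁻¹ g.y = h.y * tu p F h.y u⁻¹
        rw [tu_sq p F hus, tu_nsq p F hh, pow_p_eq p F, inv_pow, ← hv]
        have : h.y = h.y / g.y * g.y := by rw [div_mul_cancel]
        rw [inv_div]
        rw [← mul_assoc, mul_comm h.y, mul_assoc, mul_div_cancel]
      · simp [mul_b]

end NF

end Pool.Agent.helper4.Amza
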