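import Mathlib
import Pool.Agent.helper4.Amza.NearField

/-!
Upper bound for the amenability constant of the near-field groups, and the derived subgroup.
-/

open scoped commutatorElement

namespace Pool.Agent.helper4.Amza

/-- A subgroup of the square of a finite group from a relation compatible with products. -/
def mkSub {G : Type} [Group G] [Finite G] (P : G → G → Prop) (h1 : P 1 1)
    (hm : ∀ g g' h h', P g g' → P h h' → P (g * h) (g' * h')) : Subgroup (G × G) where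
  carrier := {x | P x.1 x.2}
  mul_mem' := fun {a b} ha hb => hm _ _ _ _ ha hb
  one_mem' := h1
  inv_mem' := by
    intro x hx
    have hpow : ∀ n : ℕ, P (x ^ n).1 (x ^ n).2 := by
      intro n
      induction n with
      | zero => simpa using h1
      | succ n ih => rw [pow_succ]; exact hm _ _ _ _ ih hx
    have hN : 0 < Nat.card (G × G) := Nat.card_pos
    have : x⁻¹ = x ^ (Nat.card (G × G) - 1) := by
      rw [inv_eq_iff_mul_eq_one, ← pow_succ', Nat.sub_add_cancel hN, pow_card_eq_one']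
    rw [this]
    exact hpow _

namespace NF

variable {p : ℕ} {F : Type} [Field F] [Fintype F] [hg : Good p F]

lemma mul_y_sq {g : NF p F} (h : sq p g.y) (g' : NF p F) : (g * g').y = g.y * g'.y := by
  rw [mul_y, tu_sq p F h]

lemma mul_y_nsq {g : NF p F} (h : ¬ sq p g.y) (g' : NF p F) : (g * g').y = g.y * g'.y ^ p := by
  rw [mul_y, tu_nsq p F h]

lemma sq_mul_y (g g' : NF p F) : sq p (g * g').y ↔ (sq p g.y ↔ sq p g'.y) := by
  rw [mul_y, sq_mul, sq_tu]

lemma sq_div_iff {y z : Fˣ} (h : sq p (y / z)) : sq p y ↔ sq p z := by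
  rw [div_eq_mul_inv, sq_mul, sq_inv] at h
  exact h

omit [Fintype F] hg in
lemma sq_one' : sq p (1 : Fˣ) := one_pow _

/-- The relations. -/
def P1 (g g' : NF p F) : Prop := (g.y / g'.y) ^ kk p = 1
/-- The relations. -/
def P2 (g g' : NF p F) : Prop := sq p g.y ∧ (g.y / g'.y) ^ kk p = 1
/-- The relations. -/
def P3 (g g' : NF p F) : Prop := sq p g.y ∧ g'.y = g.y
/-- The relations. -/
def P4 (g g' : NF p F) : Prop := sq p g.y ∧ g'.y = g.y ^ p
/-- The relations. -/
def P5 (g g' : NF p F) : Prop := sq p g.y ∧ g'.y = g.y ∧ g.y ^ p = g.y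
/-- The relations. -/
def P6 (g g' : NF p F) : Prop := g.y = 1 ∧ g'.y = 1 ∧ g'.b = 0
/-- The relations. -/
def P7 (g g' : NF p F) : Prop := g.y = 1 ∧ g'.y = 1 ∧ g.b = 0
/-- The relations. -/
def P8 (g g' : NF p F) : Prop := g = 1 ∧ g' = 1

lemma P1_mul (g g' h h' : NF p F) (hg : P1 g g') (hh : P1 h h') : P1 (g * h) (g' * h') := by
  unfold P1 at *
  have hs := sq_div_iff (sq_of_K p F hg)
  by_cases h1 : sq p g.y
  · rw [mul_y_sq h1, mul_y_sq (hs.mp h1), mul_div_mul_comm, mul_pow, hg, hh, one_mul]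
  · rw [mul_y_nsq h1, mul_y_nsq (fun h2 => h1 (hs.mpr h2)), mul_div_mul_comm, mul_pow, hg,
      ← div_pow, ← pow_mul, mul_comm p, pow_mul, hh, one_pow, one_mul]

lemma P2_mul (g g' h h' : NF p F) (hg : P2 g g') (hh : P2 h h') : P2 (g * h) (g' * h') :=
  ⟨(sq_mul_y g h).mpr ⟨fun _ => hh.1, fun _ => hg.1⟩, P1_mul g g' h h' hg.2 hh.2⟩

lemma P3_mul (g g' h h' : NF p F) (hg : P3 g g') (hh : P3 h h') : P3 (g * h) (g' * h') := by
  refine ⟨(sq_mul_y g h).mpr ⟨fun _ => hh.1, fun _ => hg.1⟩, ?_⟩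
  rw [mul_y_sq hg.1, mul_y_sq (by rw [hg.2]; exact hg.1), hg.2, hh.2]

lemma P4_mul (g g' h h' : NF p F) (hg : P4 g g') (hh : P4 h h') : P4 (g * h) (g' * h') := by
  refine ⟨(sq_mul_y g h).mpr ⟨fun _ => hh.1, fun _ => hg.1⟩, ?_⟩
  rw [mul_y_sq hg.1, mul_y_sq (by rw [hg.2, sq_pow_p]; exact hg.1), hg.2, hh.2, mul_pow]

lemma P5_mul (g g' h h' : NF p F) (hg : P5 g g') (hh : P5 h h') : P5 (g * h) (g' * h') := by
  obtain ⟨a1, a2⟩ := P3_mul g g' h h' ⟨hg.1, hg.2.1⟩ ⟨hh.1, hh.2.1⟩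
  refine ⟨a1, a2, ?_⟩
  rw [mul_y_sq hg.1, mul_pow, hg.2.2, hh.2.2]

lemma P6_mul (g g' h h' : NF p F) (hg : P6 g g') (hh : P6 h h') : P6 (g * h) (g' * h') := by
  refine ⟨?_, ?_, ?_⟩
  · rw [mul_y_sq (by rw [hg.1]; exact sq_one'), hg.1, hh.1, one_mul]
  · rw [mul_y_sq (by rw [hg.2.1]; exact sq_one'), hg.2.1, hh.2.1, one_mul]
  · rw [mul_b, hg.2.2, hh.2.2, map_zero, mul_zero, add_zero]

lemma P7_mul (g g' h h' : NF p F) (hg : P7 g g') (hh : P7 h h') : P7 (g * h) (g' * h') := by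
  refine ⟨?_, ?_, ?_⟩
  · rw [mul_y_sq (by rw [hg.1]; exact sq_one'), hg.1, hh.1, one_mul]
  · rw [mul_y_sq (by rw [hg.2.1]; exact sq_one'), hg.2.1, hh.2.1, one_mul]
  · rw [mul_b, hg.2.2, hh.2.2, map_zero, mul_zero, add_zero]

lemma P8_mul (g g' h h' : NF p F) (hg : P8 g g') (hh : P8 h h') : P8 (g * h) (g' * h') := by
  obtain ⟨rfl, rfl⟩ := hg
  obtain ⟨rfl, rfl⟩ := hh
  exact ⟨one_mul _, one_mul _⟩

/-- The eight subgroups. -/
noncomputable def MM (p : ℕ) (F : Type) [Field F] [Fintype F] [Good p F] : Fin 8 → Subgroup (NF p F × NF p F) :=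
  ![mkSub P1 (by simp [P1, one_y]) P1_mul, mkSub P2 (by simp [P2, one_y, sq_one']) P2_mul,
    mkSub P3 (by simp [P3, one_y, sq_one']) P3_mul, mkSub P4 (by simp [P4, one_y, sq_one']) P4_mul,
    mkSub P5 (by simp [P5, one_y, sq_one']) P5_mul, mkSub P6 (by simp [P6, one_y, one_b]) P6_mul,
    mkSub P7 (by simp [P7, one_y, one_b]) P7_mul, mkSub P8 (by simp [P8]) P8_mul]

/-- The coefficients. -/
def cc : Fin 8 → ℝ := ![1, -1, 1, 1, -1, -1, -1, 2]

noncomputable instance : Fintype (NF p F) := Fintype.ofFinite _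

open Classical in
lemma subKer_mkSub {G : Type} [Group G] [Finite G] [Fintype G] (P : G → G → Prop) (h1) (hm) (g g' : G) :
    subKer (mkSub P h1 hm) g g' = if P g g' then 1 else 0 := rfl

open Classical in
lemma sum_MM (g g' : NF p F) : ∑ i, (cc i : ℂ) * subKer (MM p F i) g g'
    = (if P1 g g' then (1 : ℂ) else 0) - (if P2 g g' then (1 : ℂ) else 0)
      + (if P3 g g' then (1 : ℂ) else 0) + (if P4 g g' then (1 : ℂ) else 0)
      - (if P5 g g' then (1 : ℂ) else 0) - (if P6 g g' then (1 : ℂ) else 0)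
      - (if P7 g g' then (1 : ℂ) else 0) + 2 * (if P8 g g' then (1 : ℂ) else 0) := by
  rw [Fin.sum_univ_eight]
  show ((1 : ℝ) : ℂ) * (if P1 g g' then (1 : ℂ) else 0)
    + ((-1 : ℝ) : ℂ) * (if P2 g g' then (1 : ℂ) else 0)
    + ((1 : ℝ) : ℂ) * (if P3 g g' then (1 : ℂ) else 0)
    + ((1 : ℝ) : ℂ) * (if P4 g g' then (1 : ℂ) else 0)
    + ((-1 : ℝ) : ℂ) * (if P5 g g' then (1 : ℂ) else 0)
    + ((-1 : ℝ) : ℂ) * (if P6 g g' then (1 : ℂ) else 0)
    + ((-1 : ℝ) : ℂ) * (if P7 g g' then (1 : ℂ) else 0)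
    + ((2 : ℝ) : ℂ) * (if P8 g g' then (1 : ℂ) else 0) = _
  push_cast
  ring

lemma decomposition (g g' : NF p F) :
    conjKer g g' = ∑ i, (cc i : ℂ) * subKer (MM p F i) g g' := by
  classical
  rw [sum_MM]
  unfold conjKer
  have hc := conj_iff g g'
  by_cases hs : sq p g.y
  · have q12 : P1 g g' ↔ P2 g g' := ⟨fun h => ⟨hs, h⟩, fun h => h.2⟩
    simp only [q12]
    by_cases h1 : g.y = 1
    · have c : IsConj g g' ↔ g'.y = 1 ∧ (g.b = 0 ↔ g'.b = 0) := by
        rw [hc]; simp [h1, sq_one']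
      have q3 : P3 g g' ↔ g'.y = 1 := by simp [P3, h1, sq_one']
      have q4 : P4 g g' ↔ g'.y = 1 := by simp [P4, h1, sq_one']
      have q5 : P5 g g' ↔ g'.y = 1 := by simp [P5, h1, sq_one']
      have q6 : P6 g g' ↔ g'.y = 1 ∧ g'.b = 0 := by simp [P6, h1]
      have q7 : P7 g g' ↔ g'.y = 1 ∧ g.b = 0 := by simp [P7, h1]
      have q8 : P8 g g' ↔ g.b = 0 ∧ g'.y = 1 ∧ g'.b = 0 := by
        unfold P8
        rw [NF.ext_iff, NF.ext_iff]
        simp [one_y, one_b, h1]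
      simp only [c, q3, q4, q5, q6, q7, q8]
      by_cases h2 : g'.y = 1 <;> by_cases b1 : g.b = 0 <;> by_cases b2 : g'.b = 0 <;>
        simp [h2, b1, b2] <;> norm_num
    · have c : IsConj g g' ↔ (g'.y = g.y ∨ g'.y = g.y ^ p) := by
        rw [hc]; simp [h1, hs]
      have q3 : P3 g g' ↔ g'.y = g.y := by simp [P3, hs]
      have q4 : P4 g g' ↔ g'.y = g.y ^ p := by simp [P4, hs]
      have q5 : P5 g g' ↔ g'.y = g.y ∧ g.y ^ p = g.y := by simp [P5, hs]
      have q6 : ¬ P6 g g' := fun h => h1 h.1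
      have q7 : ¬ P7 g g' := fun h => h1 h.1
      have q8 : ¬ P8 g g' := fun h => h1 (by rw [h.1, one_y])
      rw [if_neg q6, if_neg q7, if_neg q8]
      simp only [c, q3, q4, q5]
      by_cases h2 : g'.y = g.y
      · by_cases h3 : g.y ^ p = g.y
        · simp [h2, h3]
        · have h4 : ¬ g.y = g.y ^ p := fun h => h3 h.symm
          simp [h2, h3, h4]
      · by_cases h3 : g'.y = g.y ^ p
        · simp [h3]
        · simp [h2, h3]
  · have c : IsConj g g' ↔ P1 g g' := by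
      rw [hc]
      unfold P1
      have : g.y ≠ 1 := fun h => hs (by rw [h]; exact sq_one')
      have e : (g'.y / g.y) ^ kk p = 1 ↔ (g.y / g'.y) ^ kk p = 1 := by
        rw [← inv_div, inv_pow, inv_eq_one]
      simp [this, hs, e]
    have q2 : ¬ P2 g g' := fun h => hs h.1
    have q3 : ¬ P3 g g' := fun h => hs h.1
    have q4 : ¬ P4 g g' := fun h => hs h.1
    have q5 : ¬ P5 g g' := fun h => hs h.1
    have q6 : ¬ P6 g g' := fun h => hs (by rw [h.1]; exact sq_one')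
    have q7 : ¬ P7 g g' := fun h => hs (by rw [h.1]; exact sq_one')
    have q8 : ¬ P8 g g' := fun h => hs (by rw [h.1, one_y]; exact sq_one')
    rw [if_neg q2, if_neg q3, if_neg q4, if_neg q5, if_neg q6, if_neg q7, if_neg q8]
    simp only [c]
    ring

theorem AMZA_le_nine : AMZA (NF p F) ≤ 9 := by
  have h := AMZA_le cc (MM p F) decomposition
  refine h.trans (le_of_eq ?_)
  simp [Fin.sum_univ_succ, cc]
  norm_num

lemma comm_y (g h : NF p F) : (⁅g, h⁆ : NF p F).y ^ kk p = 1 := by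
  set c : NF p F := ⁅g, h⁆ with hc
  have h1 : g * h = c * (h * g) := by rw [hc, commutatorElement_def]; group
  have hy := congrArg NF.y h1
  have hcs : sq p c.y := by
    have h2 := sq_mul_y g h
    rw [h1, sq_mul_y, sq_mul_y] at h2
    tauto
  rw [mul_y_sq hcs] at hy
  have hy2 : c.y = (g * h).y / (h * g).y := by rw [hy, mul_div_cancel_right]
  rw [hy2]
  by_cases hgs : sq p g.y <;> by_cases hhs : sq p h.y
  · rw [mul_y_sq hgs, mul_y_sq hhs, mul_comm, div_self', one_pow]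
  · rw [mul_y_sq hgs, mul_y_nsq hhs, pow_p_eq p F g.y]
    have : g.y * h.y / (h.y * (g.y * g.y ^ (p - 1))) = (g.y ^ (p - 1))⁻¹ := by
      rw [← mul_assoc, mul_comm h.y g.y, div_mul_eq_div_div, div_self', one_div]
    rw [this, inv_pow, pow_sub_K p F, show g.y ^ ee p = 1 from hgs, inv_one]
  · rw [mul_y_nsq hgs, mul_y_sq hhs, pow_p_eq p F h.y]
    have : g.y * (h.y * h.y ^ (p - 1)) / (h.y * g.y) = h.y ^ (p - 1) := by
      rw [← mul_assoc, mul_comm h.y g.y, mul_div_cancel_left]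
    rw [this, pow_sub_K p F]
    exact hhs
  · rw [mul_y_nsq hgs, mul_y_nsq hhs, pow_p_eq p F h.y, pow_p_eq p F g.y]
    have : g.y * (h.y * h.y ^ (p - 1)) / (h.y * (g.y * g.y ^ (p - 1)))
        = h.y ^ (p - 1) * (g.y ^ (p - 1))⁻¹ := by
      rw [← mul_assoc, ← mul_assoc, mul_comm h.y g.y, mul_div_mul_left_eq_div, div_eq_mul_inv]
    rw [this, mul_pow, inv_pow, pow_sub_K p F, pow_sub_K p F, not_sq p F hgs, not_sq p F hhs,
      mul_inv_cancel]

lemma mul_K {g h : NF p F} (hg : g.y ^ kk p = 1) (hh : h.y ^ kk p = 1) :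
    (g * h).y ^ kk p = 1 := by
  rw [mul_y_sq (sq_of_K p F hg), mul_pow, hg, hh, one_mul]

lemma inv_K {g : NF p F} (hg : g.y ^ kk p = 1) : (g⁻¹).y ^ kk p = 1 := by
  rw [inv_y, tu_sq p F (sq_of_K p F hg), inv_pow, hg, inv_one]

lemma mem_commutator (g : NF p F) : g ∈ commutator (NF p F) ↔ g.y ^ kk p = 1 := by
  constructor
  · intro hgc
    let N : Subgroup (NF p F) :=
      { carrier := {x | x.y ^ kk p = 1}
        mul_mem' := fun ha hb => mul_K ha hb
        one_mem' := one_pow _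
        inv_mem' := fun ha => inv_K ha }
    have : commutator (NF p F) ≤ N := by
      rw [commutator_def, Subgroup.commutator_le]
      intro g₁ _ g₂ _
      exact comm_y g₁ g₂
    exact this hgc
  · intro h
    have hcomm : ∀ x y : NF p F, ⁅x, y⁆ ∈ commutator (NF p F) := fun x y => by
      rw [commutator_def]
      exact Subgroup.commutator_mem_commutator (Subgroup.mem_top x) (Subgroup.mem_top y)
    have h2 : (2 : F) ≠ 0 := by
      intro h2
      apply neg_one_ne_one p F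
      linear_combination -h2
    have hneg : sq p (-1 : Fˣ) := by
      unfold sq ee
      obtain ⟨m, hm⟩ := odd_p p F
      rw [hm, Nat.add_sub_cancel, mul_assoc, pow_mul]
      norm_num
    have e1 : (⟨1, g.b⟩ : NF p F) = ⁅(⟨-1, 0⟩ : NF p F), (⟨1, -g.b / 2⟩ : NF p F)⁆ := by
      rw [commutatorElement_def, eq_mul_inv_iff_mul_eq, eq_mul_inv_iff_mul_eq]
      apply NF.ext
      · simp only [mul_y, tu_sq p F sq_one', tu_sq p F hneg, mul_one, one_mul]
      · simp only [mul_b, mul_y, tau_sq p F sq_one', tu_sq p F sq_one', mul_one, one_mul,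
          tau_sq p F hneg, Units.val_one, Units.val_neg]
        field_simp
        ring
    obtain ⟨u, hu, hv⟩ := K_lift p F h
    obtain ⟨w, hw⟩ := exists_nsq p F
    have hys : sq p g.y := sq_of_K p F h
    have e2 : (⟨g.y, 0⟩ : NF p F) = ⁅(⟨w, 0⟩ : NF p F), (⟨u, 0⟩ : NF p F)⁆ := by
      rw [commutatorElement_def, eq_mul_inv_iff_mul_eq, eq_mul_inv_iff_mul_eq]
      have hus : sq p (g.y * u) := (sq_mul p F _ _).mpr ⟨fun _ => hu, fun _ => hys⟩
      apply NF.ext
      · simp only [mul_y, tu_sq p F hys, tu_nsq p F hw, tu_sq p F hus]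
        rw [pow_p_eq p F u, ← hv]
        ac_rfl
      · simp [mul_b]
    have e3 : g = (⟨1, g.b⟩ : NF p F) * ⟨g.y, 0⟩ := by
      apply NF.ext
      · simp only [mul_y, tu_sq p F sq_one', one_mul]
      · simp [mul_b]
    rw [e3, e1, e2]
    exact mul_mem (hcomm _ _) (hcomm _ _)

end NF

end Pool.Agent.helper4.Amza
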