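import Mathlib
import Pool.Agent.helper4.Amza.Upper

/-!
Lower bound for the amenability constant of the derived subgroup of the near-field groups.
-/

namespace Pool.Agent.helper4.Amza

namespace NF

variable {p : ℕ} {F : Type} [Field F] [Fintype F] [hg : Good p F]

/-- The translations inside the derived subgroup. -/
noncomputable def trans (p : ℕ) (F : Type) [Field F] [Fintype F] [Good p F] :
    Multiplicative F →* ↥(commutator (NF p F)) where
  toFun a := ⟨⟨1, a.toAdd⟩, (mem_commutator _).mpr (one_pow _)⟩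
  map_one' := rfl
  map_mul' a b := by
    apply Subtype.ext
    apply NF.ext
    · show (1 : Fˣ) = 1 * tu p F 1 1
      rw [map_one, mul_one]
    · show a.toAdd + b.toAdd = ((1 : Fˣ) : F) * tau p F 1 b.toAdd + a.toAdd
      rw [tau_sq p F sq_one', Units.val_one, one_mul, add_comm]

noncomputable instance : Fintype ↥(commutator (NF p F)) := Fintype.ofFinite _

lemma trans_conj (a b : F) :
    IsConj (trans p F (Multiplicative.ofAdd a)) (trans p F (Multiplicative.ofAdd b)) ↔
      ∃ κ : Fˣ, κ ^ kk p = 1 ∧ b = κ * a := by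
  constructor
  · intro h
    obtain ⟨x, hx⟩ := isConj_iff.mp h
    rw [mul_inv_eq_iff_eq_mul] at hx
    have hxk := (mem_commutator x.1).mp x.2
    refine ⟨x.1.y, hxk, ?_⟩
    have hb : (x.1.y : F) * tau p F x.1.y a + x.1.b = ((1 : Fˣ) : F) * tau p F 1 x.1.b + b :=
      congrArg (fun z : ↥(commutator (NF p F)) => z.1.b) hx
    rw [tau_sq p F sq_one', tau_sq p F (sq_of_K p F hxk), Units.val_one, one_mul] at hb
    linear_combination -hb
  · rintro ⟨κ, hκ, rfl⟩
    refine isConj_iff.mpr ⟨⟨⟨κ, 0⟩, (mem_commutator _).mpr hκ⟩, ?_⟩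
    rw [mul_inv_eq_iff_eq_mul]
    apply Subtype.ext
    apply NF.ext
    · show κ * tu p F κ 1 = 1 * tu p F 1 κ
      rw [map_one, mul_one, tu_sq p F sq_one', one_mul]
    · show (κ : F) * tau p F κ a + 0 = ((1 : Fˣ) : F) * tau p F 1 0 + κ * a
      rw [tau_sq p F (sq_of_K p F hκ), map_zero]
      ring

/-- The finite set of `k`-th roots of unity. -/
noncomputable def KK (p : ℕ) (F : Type) [Field F] [Fintype F] : Finset Fˣ := by
  classical exact Finset.univ.filter fun κ => κ ^ kk p = 1

omit hg in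
lemma mem_KK {κ : Fˣ} : κ ∈ KK p F ↔ κ ^ kk p = 1 := by
  unfold KK
  simp

lemma card_KK : (KK p F).card = kk p := by
  classical
  obtain ⟨z, hz, hgen⟩ := exists_gen p F
  have hk : 0 < kk p := by have := (kk_spec p F).2; omega
  have h1 : orderOf (z ^ (2 * (p - 1))) = kk p := by
    rw [orderOf_pow, hz]
    have : 2 * ee p = (2 * (p - 1)) * kk p := by unfold ee; ring
    have hp := hg.prime.two_le
    rw [this, Nat.gcd_comm, Nat.gcd_mul_right_right, Nat.mul_div_cancel_left _ (by omega)]
  have : NeZero (kk p) := ⟨hk.ne'⟩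
  have h3 : IsPrimitiveRoot (z ^ (2 * (p - 1))) (kk p) := h1 ▸ IsPrimitiveRoot.orderOf _
  have h4 := h3.card_rootsOfUnity'
  rw [Nat.card_eq_fintype_card, Fintype.card_subtype] at h4
  rw [← h4]
  unfold KK
  congr 1
  ext κ
  rw [Finset.mem_filter, Finset.mem_filter, mem_rootsOfUnity]

/-- The test function. -/
noncomputable def test (p : ℕ) (F : Type) [Field F] [Fintype F] (a b : F) : ℂ := by
  classical exact (2 / (Fintype.card F : ℂ)) * ∑ κ ∈ KK p F, (if b = κ * a then (1 : ℂ) else 0)
    - 2 * ((kk p : ℂ) - 1) / (Fintype.card F : ℂ) ^ 2 - (if a = 0 ∧ b = 0 then (1 : ℂ) else 0)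

lemma test_bound (ξ η : AddChar F ℂ) : ‖∑ a, ∑ b, test p F a b * (ξ a * η b)‖ ≤ 1 := by
  classical
  have hq : (Fintype.card F : ℂ) ≠ 0 := by exact_mod_cast Fintype.card_ne_zero
  have e1 : ∑ a, ∑ b, test p F a b * (ξ a * η b)
      = (2 / (Fintype.card F : ℂ)) * ∑ κ ∈ KK p F, ∑ a, ξ a * η (κ * a)
        - 2 * ((kk p : ℂ) - 1) / (Fintype.card F : ℂ) ^ 2 * ((∑ a, ξ a) * ∑ b, η b) - 1 := by
    unfold test
    simp only [sub_mul, Finset.sum_sub_distrib]
    congr 1
    · congr 1
      · rw [Finset.mul_sum]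
        simp only [Finset.mul_sum, Finset.sum_mul]
        rw [Finset.sum_congr rfl fun a _ => Finset.sum_comm]
        rw [Finset.sum_comm]
        refine Finset.sum_congr rfl fun κ _ => Finset.sum_congr rfl fun a _ => ?_
        rw [Finset.sum_eq_single ((κ : F) * a)]
        · simp
        · intro b _ hb
          simp [hb]
        · intro h; exact absurd (Finset.mem_univ _) h
      · rw [Finset.sum_mul_sum, Finset.mul_sum]
        refine Finset.sum_congr rfl fun a _ => ?_
        rw [Finset.mul_sum]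
    · rw [Finset.sum_eq_single 0, Finset.sum_eq_single 0]
      · simp
      · intro b _ hb
        simp [hb]
      · intro h; exact absurd (Finset.mem_univ _) h
      · intro a _ ha
        simp [ha]
      · intro h; exact absurd (Finset.mem_univ _) h
  have e2 : ∀ κ : Fˣ, ∑ a, ξ a * η (κ * a)
      = if ξ + AddChar.mulShift η κ = 0 then (Fintype.card F : ℂ) else 0 := by
    intro κ
    rw [← AddChar.sum_eq_ite]
    rfl
  have e3 : ∑ κ ∈ KK p F, ∑ a, ξ a * η (κ * a)
      = (Fintype.card F : ℂ) * (((KK p F).filter fun κ : Fˣ => ξ + AddChar.mulShift η (κ : F) = 0).card : ℂ) := by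
    simp only [e2]
    rw [← Finset.sum_filter, Finset.sum_const, nsmul_eq_mul, mul_comm]
  rw [e1, e3]
  by_cases h0 : ξ = 0 ∧ η = 0
  · obtain ⟨rfl, rfl⟩ := h0
    have h1 : ((KK p F).filter fun κ : Fˣ => (0 : AddChar F ℂ) + AddChar.mulShift 0 (κ : F) = 0)
        = KK p F := by
      apply Finset.filter_true_of_mem
      intro κ _
      ext a
      simp
    rw [h1, card_KK]
    have h2 : ∑ a : F, (0 : AddChar F ℂ) a = (Fintype.card F : ℂ) := by simp
    rw [h2]
    have : (2 / (Fintype.card F : ℂ)) * ((Fintype.card F : ℂ) * (kk p : ℂ))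
        - 2 * ((kk p : ℂ) - 1) / (Fintype.card F : ℂ) ^ 2 *
          ((Fintype.card F : ℂ) * (Fintype.card F : ℂ)) - 1 = 1 := by
      field_simp
      ring
    rw [this]
    simp
  · have h1 : (∑ a, ξ a) * ∑ b, η b = 0 := by
      by_cases hξ : ξ = 0
      · have hη : η ≠ 0 := fun h => h0 ⟨hξ, h⟩
        rw [AddChar.sum_eq_zero_iff_ne_zero.mpr hη, mul_zero]
      · rw [AddChar.sum_eq_zero_iff_ne_zero.mpr hξ, zero_mul]
    have h2 : ((KK p F).filter fun κ : Fˣ => ξ + AddChar.mulShift η (κ : F) = 0).card ≤ 1 := by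
      rw [Finset.card_le_one]
      intro κ hκ κ' hκ'
      have a1 := (Finset.mem_filter.mp hκ).2
      have a2 := (Finset.mem_filter.mp hκ').2
      by_contra hne
      apply h0
      have hsub : (κ : F) - κ' ≠ 0 := by
        intro h
        exact hne (Units.ext (sub_eq_zero.mp h))
      have hη : η = 0 := by
        rw [AddChar.eq_zero_iff]
        intro x
        have a3 : AddChar.mulShift η (κ : F) = AddChar.mulShift η (κ' : F) := by
          rw [← a2] at a1
          exact add_left_cancel a1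
        have a4 := DFunLike.congr_fun a3 (x / ((κ : F) - κ'))
        rw [AddChar.mulShift_apply, AddChar.mulShift_apply] at a4
        have a5 : x = (κ : F) * (x / ((κ : F) - κ')) + - ((κ' : F) * (x / ((κ : F) - κ'))) := by
          field_simp
          ring
        rw [a5, AddChar.map_add_eq_mul, a4, ← AddChar.map_add_eq_mul, add_neg_cancel,
          AddChar.map_zero_eq_one]
      refine ⟨?_, hη⟩
      rw [hη] at a1
      have : AddChar.mulShift (0 : AddChar F ℂ) (κ : F) = 0 := by ext; simp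
      rwa [this, add_zero] at a1
    rw [h1, mul_zero, sub_zero]
    have h3 : (2 / (Fintype.card F : ℂ)) * ((Fintype.card F : ℂ) *
        (((KK p F).filter fun κ : Fˣ => ξ + AddChar.mulShift η (κ : F) = 0).card : ℂ)) - 1
        = 2 * (((KK p F).filter fun κ : Fˣ => ξ + AddChar.mulShift η (κ : F) = 0).card : ℂ) - 1 := by
      field_simp
    rw [h3]
    interval_cases h : ((KK p F).filter fun κ : Fˣ => ξ + AddChar.mulShift η (κ : F) = 0).card
    · simp
    · norm_num

lemma conjKer_trans_mul {κ : Fˣ} (hκ : κ ∈ KK p F) (a : F) :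
    conjKer (trans p F (Multiplicative.ofAdd a)) (trans p F (Multiplicative.ofAdd (κ * a))) = 1 :=
  conjKer_of ((trans_conj _ _).mpr ⟨κ, mem_KK.mp hκ, rfl⟩)

lemma sum_conjKer_trans (a : F) : ∃ n : ℕ, n ≤ kk p ∧
    ∑ b : F, conjKer (trans p F (Multiplicative.ofAdd a)) (trans p F (Multiplicative.ofAdd b)) = n := by
  classical
  refine ⟨((KK p F).image fun κ : Fˣ => (κ : F) * a).card, ?_, ?_⟩
  · rw [← card_KK (p := p) (F := F)]
    exact Finset.card_image_le
  · have h : ∀ b : F, conjKer (trans p F (Multiplicative.ofAdd a))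
        (trans p F (Multiplicative.ofAdd b))
        = if b ∈ (KK p F).image (fun κ : Fˣ => (κ : F) * a) then (1 : ℂ) else 0 := by
      intro b
      by_cases hb : b ∈ (KK p F).image (fun κ : Fˣ => (κ : F) * a)
      · rw [if_pos hb]
        obtain ⟨κ, hκ, rfl⟩ := Finset.mem_image.mp hb
        exact conjKer_trans_mul hκ a
      · rw [if_neg hb, conjKer_of_not]
        intro hc
        obtain ⟨κ, hκ, rfl⟩ := (trans_conj _ _).mp hc
        exact hb (Finset.mem_image.mpr ⟨κ, mem_KK.mpr hκ, rfl⟩)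
    simp only [h]
    rw [Finset.sum_ite_mem, Finset.univ_inter, Finset.sum_const, nsmul_eq_mul, mul_one]

lemma pair_value : ∃ n : ℕ, n ≤ kk p * Fintype.card F ∧
    ∑ a : F, ∑ b : F, test p F a b *
      conjKer (trans p F (Multiplicative.ofAdd a)) (trans p F (Multiplicative.ofAdd b))
    = ((2 * (kk p : ℝ) - 2 * ((kk p : ℝ) - 1) / (Fintype.card F : ℝ) ^ 2 * n - 1 : ℝ) : ℂ) := by
  classical
  have hq : (Fintype.card F : ℂ) ≠ 0 := by exact_mod_cast Fintype.card_ne_zero
  choose m hm hme using fun a : F => sum_conjKer_trans (p := p) a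
  refine ⟨∑ a, m a, ?_, ?_⟩
  · calc ∑ a, m a ≤ ∑ _a : F, kk p := Finset.sum_le_sum fun a _ => hm a
      _ = kk p * Fintype.card F := by rw [Finset.sum_const, smul_eq_mul, Finset.card_univ, mul_comm]
  · unfold test
    simp only [sub_mul, Finset.sum_sub_distrib]
    push_cast
    congr 1
    · congr 1
      · have h1 : ∑ a : F, ∑ b : F, 2 / (Fintype.card F : ℂ) *
            (∑ κ ∈ KK p F, if b = κ * a then (1 : ℂ) else 0) *
            conjKer (trans p F (Multiplicative.ofAdd a)) (trans p F (Multiplicative.ofAdd b))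
            = 2 / (Fintype.card F : ℂ) * ∑ κ ∈ KK p F, ∑ a : F, 1 := by
          rw [Finset.mul_sum]
          simp only [Finset.mul_sum, Finset.sum_mul]
          rw [Finset.sum_congr rfl fun a _ => Finset.sum_comm]
          rw [Finset.sum_comm]
          refine Finset.sum_congr rfl fun κ hκ => Finset.sum_congr rfl fun a _ => ?_
          rw [Finset.sum_eq_single ((κ : F) * a)]
          · rw [if_pos rfl, conjKer_trans_mul hκ]; ring
          · intro b _ hb
            simp [hb]
          · intro h; exact absurd (Finset.mem_univ _) h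
        rw [h1]
        simp only [Finset.sum_const, Finset.card_univ, card_KK, nsmul_eq_mul, mul_one]
        field_simp
      · simp only [← hme]
        rw [Finset.mul_sum]
        refine Finset.sum_congr rfl fun a _ => ?_
        rw [Finset.mul_sum]
    · rw [Finset.sum_eq_single 0, Finset.sum_eq_single 0]
      · rw [conjKer_of (IsConj.refl _)]
        simp
      · intro b _ hb
        simp [hb]
      · intro h; exact absurd (Finset.mem_univ _) h
      · intro a _ ha
        simp [ha]
      · intro h; exact absurd (Finset.mem_univ _) h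

theorem le_AMZA_commutator : (p : ℝ) - 1 / 2 ≤ AMZA ↥(commutator (NF p F)) := by
  have h := le_AMZA (trans p F) (test p F) test_bound
  refine le_trans ?_ h
  obtain ⟨n, hn, he⟩ := pair_value (p := p) (F := F)
  rw [he, Complex.norm_real]
  refine le_trans ?_ (le_abs_self _)
  obtain ⟨h1, h2⟩ := kk_spec p F
  have h1' : (p : ℝ) + 1 = 2 * (kk p : ℝ) := by exact_mod_cast h1
  have h2' : (2 : ℝ) ≤ (kk p : ℝ) := by exact_mod_cast h2
  have hq : (Fintype.card F : ℝ) = (p : ℝ) ^ 2 := by rw [hg.card]; push_cast; rfl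
  have hn' : (n : ℝ) ≤ (kk p : ℝ) * (Fintype.card F : ℝ) := by exact_mod_cast hn
  have hp : (0 : ℝ) < p := by exact_mod_cast hg.prime.pos
  rw [hq] at hn' ⊢
  have hk : (kk p : ℝ) = ((p : ℝ) + 1) / 2 := by linarith
  rw [hk] at hn' h2' ⊢
  have h3 : 2 * (((p : ℝ) + 1) / 2 - 1) / ((p : ℝ) ^ 2) ^ 2 * n ≤ 1 / 2 := by
    have h4 : 2 * (((p : ℝ) + 1) / 2 - 1) / ((p : ℝ) ^ 2) ^ 2 * n
        ≤ 2 * (((p : ℝ) + 1) / 2 - 1) / ((p : ℝ) ^ 2) ^ 2 * (((p : ℝ) + 1) / 2 * (p : ℝ) ^ 2) := by
      apply mul_le_mul_of_nonneg_left hn'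
      apply div_nonneg _ (by positivity)
      linarith
    refine h4.trans ?_
    have h5 : 2 * (((p : ℝ) + 1) / 2 - 1) / ((p : ℝ) ^ 2) ^ 2 * (((p : ℝ) + 1) / 2 * (p : ℝ) ^ 2)
        = ((p : ℝ) ^ 2 - 1) / (2 * (p : ℝ) ^ 2) := by
      field_simp
      ring
    rw [h5, div_le_div_iff₀ (by positivity) (by norm_num)]
    linarith
  linarith

end NF

/-- The amenability constant of the derived subgroup can be arbitrarily large while that of the
group is at most nine. -/
theorem main (C : ℝ) : ∃ (G : Type) (_ : Group G) (_ : Finite G),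
    AMZA G ≤ 9 ∧ C < AMZA ↥(commutator G) := by
  obtain ⟨p, hp, hpp⟩ := Nat.exists_infinite_primes (max 3 (⌈C⌉₊ + 2))
  haveI : Fact p.Prime := ⟨hpp⟩
  have h3 : 3 ≤ p := le_trans (le_max_left _ _) hp
  have hC : ⌈C⌉₊ + 2 ≤ p := le_trans (le_max_right _ _) hp
  letI : Fintype (GaloisField p 2) := Fintype.ofFinite _
  haveI : Good p (GaloisField p 2) :=
    ⟨hpp, by omega, by rw [← Nat.card_eq_fintype_card, GaloisField.card p 2 (by norm_num)]⟩
  refine ⟨NF p (GaloisField p 2), inferInstance, inferInstance, NF.AMZA_le_nine, ?_⟩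
  refine lt_of_lt_of_le ?_ NF.le_AMZA_commutator
  have h4 : C ≤ ⌈C⌉₊ := Nat.le_ceil C
  have h5 : ((⌈C⌉₊ + 2 : ℕ) : ℝ) ≤ p := by exact_mod_cast hC
  push_cast at h5
  linarith

end Pool.Agent.helper4.Amza
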